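import Mathlib

/-! Skew products, the `ℓ¹` norm on `ℤ ^ m`, word norms. -/

set_option autoImplicit false

namespace Pool.Agent.H.MP_a7957c_al

/-- Skew product elements: a permutation of `X` together with a function `X → A`. -/
@[ext]
structure Sk (X A : Type) where
  val : X → A
  perm : Equiv.Perm X

namespace Sk

variable {X A : Type} [Group A]

instance : Mul (Sk X A) := ⟨fun a b => ⟨fun x => a.val (b.perm x) * b.val x, a.perm * b.perm⟩⟩
instance : One (Sk X A) := ⟨⟨fun _ => 1, 1⟩⟩
instance : Inv (Sk X A) := ⟨fun a => ⟨fun x => (a.val (a.perm.symm x))⁻¹, a.perm⁻¹⟩⟩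

@[simp] theorem mul_val (a b : Sk X A) (x : X) : (a * b).val x = a.val (b.perm x) * b.val x := rfl
@[simp] theorem mul_perm (a b : Sk X A) : (a * b).perm = a.perm * b.perm := rfl
@[simp] theorem one_val (x : X) : (1 : Sk X A).val x = 1 := rfl
@[simp] theorem one_perm : (1 : Sk X A).perm = 1 := rfl
@[simp] theorem inv_val (a : Sk X A) (x : X) : (a⁻¹).val x = (a.val (a.perm.symm x))⁻¹ := rfl
@[simp] theorem inv_perm (a : Sk X A) : (a⁻¹).perm = a.perm⁻¹ := rfl

instance : Group (Sk X A) := Group.ofLeftAxioms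
  (by
    intro a b c
    ext x
    · simp [mul_assoc]
    · simp [mul_assoc])
  (by
    intro a
    ext x
    · simp
    · simp)
  (by
    intro a
    ext x
    · simp
    · simp)

end Sk

/-- the `ℓ¹` norm -/
def nrm {m : ℕ} (v : Fin m → ℤ) : ℕ := ∑ i, (v i).natAbs

theorem nrm_zero {m : ℕ} : nrm (0 : Fin m → ℤ) = 0 := by simp [nrm]

theorem nrm_add {m : ℕ} (v w : Fin m → ℤ) : nrm (v + w) ≤ nrm v + nrm w := by
  unfold nrm
  rw [← Finset.sum_add_distrib]
  exact Finset.sum_le_sum fun i _ => Int.natAbs_add_le _ _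

theorem nrm_neg {m : ℕ} (v : Fin m → ℤ) : nrm (-v) = nrm v := by simp [nrm]

theorem nrm_sub {m : ℕ} (v w : Fin m → ℤ) : nrm (v - w) ≤ nrm v + nrm w := by
  rw [sub_eq_add_neg, ← nrm_neg w]
  exact nrm_add _ _

theorem nrm_single {m : ℕ} (i : Fin m) (a : ℤ) : nrm (Pi.single i a) = a.natAbs := by
  unfold nrm
  rw [Finset.sum_eq_single i]
  · simp
  · intro j _ hj
    simp [Pi.single_eq_of_ne hj]
  · simp

theorem nrm_eq_zero {m : ℕ} {v : Fin m → ℤ} (h : nrm v = 0) : v = 0 := by
  funext i
  unfold nrm at h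
  rw [Finset.sum_eq_zero_iff] at h
  simpa using h i (Finset.mem_univ _)

theorem nrm_split {m : ℕ} (v : Fin m → ℤ) (i : Fin m) :
    nrm v = (v i).natAbs + ∑ j ∈ Finset.univ.erase i, (v j).natAbs := by
  unfold nrm
  rw [← Finset.add_sum_erase _ _ (Finset.mem_univ i)]

theorem nrm_add_single {m : ℕ} (v : Fin m → ℤ) (i : Fin m) (a : ℤ) :
    nrm (v + Pi.single i a) + (v i).natAbs = nrm v + (v i + a).natAbs := by
  have h0 := nrm_split (v + Pi.single i a) i
  have h0' := nrm_split v i
  have h1 : (v + Pi.single i a : Fin m → ℤ) i = v i + a := by simp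
  have h2 : ∑ j ∈ Finset.univ.erase i, ((v + Pi.single i a : Fin m → ℤ) j).natAbs =
      ∑ j ∈ Finset.univ.erase i, (v j).natAbs := by
    refine Finset.sum_congr rfl fun j hj => ?_
    have : j ≠ i := Finset.ne_of_mem_erase hj
    simp [Pi.single_eq_of_ne this]
  rw [h1, h2] at h0
  omega

/-- induction on `ℤ ^ m` along norm-increasing steps. -/
theorem V_induction {m : ℕ} (P : (Fin m → ℤ) → Prop) (h0 : P 0)
    (hp : ∀ v i, 0 ≤ v i → P v → P (v + Pi.single i 1))
    (hm : ∀ v i, v i ≤ 0 → P v → P (v - Pi.single i 1)) : ∀ v, P v := by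
  intro v
  induction hk : nrm v using Nat.strong_induction_on generalizing v with
  | _ k ih =>
    by_cases hv : v = 0
    · rw [hv]; exact h0
    · obtain ⟨i, hi⟩ : ∃ i, v i ≠ 0 := by
        by_contra hcon
        push Not at hcon
        exact hv (funext hcon)
      rcases lt_or_gt_of_ne hi with hneg | hpos
      · have h1 := nrm_add_single v i 1
        have h2 := ih (nrm (v + Pi.single i 1)) (by omega) _ rfl
        have h3 := hm (v + Pi.single i 1) i (by simp; omega) h2
        simpa using h3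
      · have h1 := nrm_add_single v i (-1)
        have h4 : v + Pi.single i (-1) = v - Pi.single i 1 := by
          rw [Pi.single_neg]; rfl
        rw [h4] at h1
        have h2 := ih (nrm (v - Pi.single i 1)) (by omega) _ rfl
        have h3 := hp (v - Pi.single i 1) i (by simp; omega) h2
        simpa using h3

/-- simple induction on `ℤ ^ m`. -/
theorem V_induction' {m : ℕ} (P : (Fin m → ℤ) → Prop) (h0 : P 0)
    (hp : ∀ v i, P v → P (v + Pi.single i 1))
    (hm : ∀ v i, P v → P (v - Pi.single i 1)) : ∀ v, P v :=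
  V_induction P h0 (fun v i _ => hp v i) (fun v i _ => hm v i)

/-- A subadditive function on the free group bounded by `c` on letters is bounded by `c * norm`. -/
theorem le_mul_norm {n : ℕ} (c : ℕ) (u : FreeGroup (Fin n) → ℕ) (h1 : u 1 = 0)
    (hmul : ∀ a b, u (a * b) ≤ u a + u b) (hof : ∀ i, u (FreeGroup.of i) ≤ c)
    (hinv : ∀ i, u (FreeGroup.of i)⁻¹ ≤ c) (g : FreeGroup (Fin n)) :
    u g ≤ c * FreeGroup.norm g := by
  have key : ∀ l : List (Fin n × Bool), u (FreeGroup.mk l) ≤ c * l.length := by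
    intro l
    induction l with
    | nil =>
      have : (FreeGroup.mk [] : FreeGroup (Fin n)) = 1 := rfl
      rw [this, h1]; simp
    | cons a l ih =>
      have h2 : FreeGroup.mk (a :: l) = FreeGroup.mk [a] * FreeGroup.mk l := by
        rw [FreeGroup.mul_mk]; rfl
      rw [h2]
      have h3 : u (FreeGroup.mk [a]) ≤ c := by
        rcases a with ⟨i, b⟩
        cases b
        · have : (FreeGroup.mk [(i, false)] : FreeGroup (Fin n)) = (FreeGroup.of i)⁻¹ := by
            simp [FreeGroup.of, FreeGroup.inv_mk, FreeGroup.invRev]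
          rw [this]; exact hinv i
        · exact hof i
      calc u (FreeGroup.mk [a] * FreeGroup.mk l) ≤ u (FreeGroup.mk [a]) + u (FreeGroup.mk l) := hmul _ _
        _ ≤ c + c * l.length := add_le_add h3 ih
        _ = c * (a :: l).length := by rw [List.length_cons]; ring
  have := key (FreeGroup.toWord g)
  rwa [FreeGroup.mk_toWord] at this

end Pool.Agent.H.MP_a7957c_al
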