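import Mathlib
import Pool.Agent.H.MP_a7957c_al.Sk

/-! The coarse fundamental group argument: a finite quotient `F_n ⧸ N` coarsely equivalent
(with constant `c`) to a torus `ℤ ^ m ⧸ L` of large systole satisfies `N / R ≅ ℤ ^ m`, where `R` is
generated by the short elements of `N`. -/

set_option autoImplicit false

namespace Pool.Agent.H.MP_a7957c_al

open Module

/-- coarse equivalence data between `ℤ ^ m ⧸ L` and `F_n ⧸ N`. -/
structure CoarseData (n m c : ℕ) (N : Subgroup (FreeGroup (Fin n))) [N.Normal]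
    (L : AddSubgroup (Fin m → ℤ)) where
  f : (Fin m → ℤ) ⧸ L → FreeGroup (Fin n) ⧸ N
  h : FreeGroup (Fin n) ⧸ N → (Fin m → ℤ) ⧸ L
  wf : (Fin m → ℤ) ⧸ L → Fin m → FreeGroup (Fin n)
  wf_norm : ∀ x i, (wf x i).norm ≤ c
  wf_spec : ∀ x i, f (x + ((Pi.single i 1 : Fin m → ℤ) : (Fin m → ℤ) ⧸ L)) =
    (wf x i : FreeGroup (Fin n) ⧸ N) * f x
  vh : FreeGroup (Fin n) ⧸ N → Fin n → (Fin m → ℤ)
  vh_norm : ∀ y j, nrm (vh y j) ≤ c
  vh_spec : ∀ y j, h ((FreeGroup.of j : FreeGroup (Fin n) ⧸ N) * y) =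
    h y + (vh y j : (Fin m → ℤ) ⧸ L)
  sg : (Fin m → ℤ) ⧸ L → (Fin m → ℤ)
  sg_norm : ∀ x, nrm (sg x) ≤ c
  sg_spec : ∀ x, h (f x) = x + (sg x : (Fin m → ℤ) ⧸ L)
  ta : FreeGroup (Fin n) ⧸ N → FreeGroup (Fin n)
  ta_norm : ∀ y, (ta y).norm ≤ c
  ta_spec : ∀ y, f (h y) = (ta y : FreeGroup (Fin n) ⧸ N) * y

/-- the scale -/
def rr (c : ℕ) : ℕ := c * c + 6 * c + 1

/-- the systole bound -/
def ss (c : ℕ) : ℕ := c * rr c + c * c + 2 * c + 1

/-- the subgroup generated by short elements -/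
def RR {n : ℕ} (c : ℕ) (N : Subgroup (FreeGroup (Fin n))) : Subgroup (FreeGroup (Fin n)) :=
  Subgroup.normalClosure {g | g ∈ N ∧ g.norm ≤ rr c}

instance {n : ℕ} (c : ℕ) (N : Subgroup (FreeGroup (Fin n))) : (RR c N).Normal :=
  Subgroup.normalClosure_normal

namespace CoarseData

variable {n m c : ℕ} {N : Subgroup (FreeGroup (Fin n))} [hN : N.Normal]
  {L : AddSubgroup (Fin m → ℤ)} (D : CoarseData n m c N L)

/-- the free group acts on `Q × V`. -/
def Phi : FreeGroup (Fin n) →* Sk (FreeGroup (Fin n) ⧸ N) (Multiplicative (Fin m → ℤ)) :=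
  FreeGroup.lift (fun j => ⟨fun y => Multiplicative.ofAdd (D.vh y j),
    Equiv.mulLeft (FreeGroup.of j : FreeGroup (Fin n) ⧸ N)⟩)

theorem Phi_of (j : Fin n) : D.Phi (FreeGroup.of j) = ⟨fun y => Multiplicative.ofAdd (D.vh y j),
    Equiv.mulLeft (FreeGroup.of j : FreeGroup (Fin n) ⧸ N)⟩ := by
  unfold Phi
  rw [FreeGroup.lift_apply_of]

theorem Phi_perm (g : FreeGroup (Fin n)) (y : FreeGroup (Fin n) ⧸ N) :
    (D.Phi g).perm y = (g : FreeGroup (Fin n) ⧸ N) * y := by
  induction g using FreeGroup.induction_on generalizing y with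
  | C1 => rw [map_one]; simp
  | of j => rw [Phi_of]; rfl
  | inv_of j ih =>
    rw [map_inv, Sk.inv_perm, Equiv.Perm.inv_def, Equiv.symm_apply_eq, ih, QuotientGroup.mk_inv,
      mul_inv_cancel_left]
  | mul a b iha ihb =>
    rw [map_mul, Sk.mul_perm, Equiv.Perm.mul_apply, ihb, iha, QuotientGroup.mk_mul, mul_assoc]

/-- the cocycle -/
def del (g : FreeGroup (Fin n)) (y : FreeGroup (Fin n) ⧸ N) : Fin m → ℤ :=
  Multiplicative.toAdd ((D.Phi g).val y)

theorem del_mul (g g' : FreeGroup (Fin n)) (y : FreeGroup (Fin n) ⧸ N) :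
    D.del (g * g') y = D.del g ((g' : FreeGroup (Fin n) ⧸ N) * y) + D.del g' y := by
  unfold del
  rw [map_mul, Sk.mul_val, toAdd_mul, Phi_perm]

theorem del_one (y : FreeGroup (Fin n) ⧸ N) : D.del 1 y = 0 := by
  unfold del
  rw [map_one]; rfl

theorem del_of (j : Fin n) (y : FreeGroup (Fin n) ⧸ N) : D.del (FreeGroup.of j) y = D.vh y j := by
  unfold del
  rw [Phi_of]; rfl

theorem del_inv (g : FreeGroup (Fin n)) (y : FreeGroup (Fin n) ⧸ N) :
    D.del g⁻¹ y = - D.del g ((g⁻¹ : FreeGroup (Fin n)) * y : FreeGroup (Fin n) ⧸ N) := by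
  have := D.del_mul g g⁻¹ y
  rw [mul_inv_cancel, del_one] at this
  exact (neg_eq_of_add_eq_zero_right this.symm).symm

theorem del_spec (g : FreeGroup (Fin n)) (y : FreeGroup (Fin n) ⧸ N) :
    D.h ((g : FreeGroup (Fin n) ⧸ N) * y) = D.h y + (D.del g y : (Fin m → ℤ) ⧸ L) := by
  induction g using FreeGroup.induction_on generalizing y with
  | C1 => rw [del_one]; simp
  | of j => rw [del_of]; exact D.vh_spec y j
  | inv_of j ih =>
    rw [del_inv]
    have := ih (((FreeGroup.of j)⁻¹ : FreeGroup (Fin n)) * y : FreeGroup (Fin n) ⧸ N)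
    rw [QuotientGroup.mk_inv, mul_inv_cancel_left] at this
    rw [QuotientGroup.mk_inv, this, QuotientAddGroup.mk_neg, add_neg_cancel_right]
  | mul a b iha ihb =>
    rw [del_mul, QuotientGroup.mk_mul, mul_assoc, iha, ihb, QuotientAddGroup.mk_add]
    abel

theorem del_norm (g : FreeGroup (Fin n)) (y : FreeGroup (Fin n) ⧸ N) :
    nrm (D.del g y) ≤ c * g.norm := by
  -- sup over `y`
  have key : ∀ g : FreeGroup (Fin n), ∀ y, nrm (D.del g y) ≤ c * g.norm := by
    have h2 : ∀ l : List (Fin n × Bool), ∀ y, nrm (D.del (FreeGroup.mk l) y) ≤ c * l.length := by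
      intro l
      induction l with
      | nil =>
        intro y
        have : (FreeGroup.mk [] : FreeGroup (Fin n)) = 1 := rfl
        rw [this, del_one, nrm_zero]; simp
      | cons a l ih =>
        intro y
        have h2 : FreeGroup.mk (a :: l) = FreeGroup.mk [a] * FreeGroup.mk l := by
          rw [FreeGroup.mul_mk]; rfl
        rw [h2, del_mul]
        have h3 : ∀ y, nrm (D.del (FreeGroup.mk [a]) y) ≤ c := by
          intro y
          rcases a with ⟨i, b⟩
          cases b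
          · have : (FreeGroup.mk [(i, false)] : FreeGroup (Fin n)) = (FreeGroup.of i)⁻¹ := by
              simp [FreeGroup.of, FreeGroup.inv_mk, FreeGroup.invRev]
            rw [this, del_inv, nrm_neg, del_of]; exact D.vh_norm _ i
          · have : (FreeGroup.mk [(i, true)] : FreeGroup (Fin n)) = (FreeGroup.of i) := rfl
            rw [this, del_of]; exact D.vh_norm _ i
        calc _ ≤ nrm (D.del (FreeGroup.mk [a]) _) + nrm (D.del (FreeGroup.mk l) y) := nrm_add _ _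
          _ ≤ c + c * l.length := add_le_add (h3 _) (ih y)
          _ = c * (a :: l).length := by rw [List.length_cons]; ring
    intro g y
    have := h2 (FreeGroup.toWord g) y
    rwa [FreeGroup.mk_toWord] at this
  exact key g y

variable (hsys : ∀ v ∈ L, nrm v ≤ ss c → v = 0)

include hsys in
theorem del_short {g : FreeGroup (Fin n)} (hg : g ∈ N) (hr : g.norm ≤ rr c)
    (y : FreeGroup (Fin n) ⧸ N) : D.del g y = 0 := by
  apply hsys
  · have := D.del_spec g y
    rw [(QuotientGroup.eq_one_iff g).mpr hg, one_mul] at this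
    have h2 : ((D.del g y : Fin m → ℤ) : (Fin m → ℤ) ⧸ L) = 0 := by
      have h3 := this.symm
      rwa [add_eq_left] at h3
    exact (QuotientAddGroup.eq_zero_iff _).mp h2
  · calc nrm (D.del g y) ≤ c * g.norm := D.del_norm g y
      _ ≤ c * rr c := Nat.mul_le_mul_left _ hr
      _ ≤ ss c := by unfold ss; omega

include hsys in
theorem RR_le_ker : RR c N ≤ D.Phi.ker := by
  unfold RR
  refine Subgroup.normalClosure_le_normal ?_
  rintro g ⟨hg, hr⟩
  rw [SetLike.mem_coe, MonoidHom.mem_ker]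
  refine Sk.ext (funext fun y => ?_) (Equiv.ext fun y => ?_)
  · have := D.del_short hsys hg hr y
    rw [Sk.one_val]
    unfold del at this
    exact Multiplicative.toAdd.injective this
  · rw [Phi_perm, (QuotientGroup.eq_one_iff g).mpr hg]; simp

theorem RR_le : RR c N ≤ N := by
  unfold RR
  exact Subgroup.normalClosure_le_normal fun g hg => hg.1

omit hN in
/-- short words with the same image in `Q` have the same image in `Γ`. -/
theorem short_eq (a b : FreeGroup (Fin n))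
    (hab : (a : FreeGroup (Fin n) ⧸ N) = (b : FreeGroup (Fin n) ⧸ N))
    (hr : a.norm + b.norm ≤ rr c) :
    (a : FreeGroup (Fin n) ⧸ RR c N) = (b : FreeGroup (Fin n) ⧸ RR c N) := by
  rw [QuotientGroup.eq] at hab ⊢
  refine Subgroup.subset_normalClosure ⟨hab, ?_⟩
  refine le_trans (FreeGroup.norm_mul_le _ _) ?_
  rwa [FreeGroup.norm_inv_eq]

/-- projection `Γ → Q`. -/
def pr : FreeGroup (Fin n) ⧸ RR c N →* FreeGroup (Fin n) ⧸ N :=
  QuotientGroup.map (RR c N) N (MonoidHom.id _) (by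
    intro x hx
    exact RR_le hx)

theorem pr_mk (g : FreeGroup (Fin n)) :
    pr (c := c) (g : FreeGroup (Fin n) ⧸ RR c N) = (g : FreeGroup (Fin n) ⧸ N) := rfl

/-- the descended cocycle. -/
def PhiB : FreeGroup (Fin n) ⧸ RR c N →*
    Sk (FreeGroup (Fin n) ⧸ N) (Multiplicative (Fin m → ℤ)) :=
  QuotientGroup.lift (RR c N) D.Phi (fun _ hg => D.RR_le_ker hsys hg)

/-- the descended cocycle -/
def delB (γ : FreeGroup (Fin n) ⧸ RR c N) (y : FreeGroup (Fin n) ⧸ N) : Fin m → ℤ :=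
  Multiplicative.toAdd ((D.PhiB hsys γ).val y)

theorem delB_mk (g : FreeGroup (Fin n)) (y : FreeGroup (Fin n) ⧸ N) :
    D.delB hsys (g : FreeGroup (Fin n) ⧸ RR c N) y = D.del g y := rfl

theorem delB_mul (γ γ' : FreeGroup (Fin n) ⧸ RR c N) (y : FreeGroup (Fin n) ⧸ N) :
    D.delB hsys (γ * γ') y = D.delB hsys γ (pr γ' * y) + D.delB hsys γ' y := by
  obtain ⟨g, rfl⟩ := QuotientGroup.mk_surjective γ
  obtain ⟨g', rfl⟩ := QuotientGroup.mk_surjective γ'
  rw [← QuotientGroup.mk_mul, delB_mk, delB_mk, delB_mk, del_mul, pr_mk]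

/-- the generators of the `ℤ ^ m`-action on `P × Γ`. -/
def TT (i : Fin m) : Sk ((Fin m → ℤ) ⧸ L) (FreeGroup (Fin n) ⧸ RR c N) :=
  ⟨fun x => (D.wf x i : FreeGroup (Fin n) ⧸ RR c N),
    Equiv.addRight ((Pi.single i 1 : Fin m → ℤ) : (Fin m → ℤ) ⧸ L)⟩

theorem TT_comm (i j : Fin m) : D.TT i * D.TT j = D.TT j * D.TT i := by
  ext x
  · simp only [Sk.mul_val, TT, Equiv.coe_addRight]
    rw [← QuotientGroup.mk_mul, ← QuotientGroup.mk_mul]
    apply short_eq
    · have h1 := D.wf_spec (x + ((Pi.single j 1 : Fin m → ℤ) : (Fin m → ℤ) ⧸ L)) i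
      have h2 := D.wf_spec (x + ((Pi.single i 1 : Fin m → ℤ) : (Fin m → ℤ) ⧸ L)) j
      rw [D.wf_spec x j, ← mul_assoc] at h1
      rw [D.wf_spec x i, ← mul_assoc, add_right_comm, h1] at h2
      rw [QuotientGroup.mk_mul, QuotientGroup.mk_mul]
      exact mul_right_cancel h2
    · have a1 := D.wf_norm (x + ((Pi.single j 1 : Fin m → ℤ) : (Fin m → ℤ) ⧸ L)) i
      have a2 := D.wf_norm x j
      have a3 := D.wf_norm (x + ((Pi.single i 1 : Fin m → ℤ) : (Fin m → ℤ) ⧸ L)) j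
      have a4 := D.wf_norm x i
      have a5 := FreeGroup.norm_mul_le (D.wf (x + ((Pi.single j 1 : Fin m → ℤ) : (Fin m → ℤ) ⧸ L)) i) (D.wf x j)
      have a6 := FreeGroup.norm_mul_le (D.wf (x + ((Pi.single i 1 : Fin m → ℤ) : (Fin m → ℤ) ⧸ L)) j) (D.wf x i)
      unfold rr
      have : 0 ≤ c * c := Nat.zero_le _
      omega
  · simp only [Sk.mul_perm, TT, Equiv.Perm.mul_apply, Equiv.coe_addRight]
    exact add_right_comm _ _ _

theorem TT_pairwise : Pairwise fun i j : Fin m => ∀ (x y : Multiplicative ℤ),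
    Commute (zpowersHom (Sk ((Fin m → ℤ) ⧸ L) (FreeGroup (Fin n) ⧸ RR c N)) (D.TT i) x)
      (zpowersHom (Sk ((Fin m → ℤ) ⧸ L) (FreeGroup (Fin n) ⧸ RR c N)) (D.TT j) y) := by
  intro i j _ x y
  have : Commute (D.TT i) (D.TT j) := D.TT_comm i j
  simp only [zpowersHom_apply]
  exact (this.zpow_left _).zpow_right _

/-- the `ℤ ^ m`-action on `P × Γ`. -/
noncomputable def Psi : (Fin m → Multiplicative ℤ) →*
    Sk ((Fin m → ℤ) ⧸ L) (FreeGroup (Fin n) ⧸ RR c N) :=
  MonoidHom.noncommPiCoprod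
    (fun i => zpowersHom (Sk ((Fin m → ℤ) ⧸ L) (FreeGroup (Fin n) ⧸ RR c N)) (D.TT i)) D.TT_pairwise

/-- the transport function. -/
noncomputable def FF (v : Fin m → ℤ) : Sk ((Fin m → ℤ) ⧸ L) (FreeGroup (Fin n) ⧸ RR c N) :=
  D.Psi (fun i => Multiplicative.ofAdd (v i))

theorem FF_add (v w : Fin m → ℤ) : D.FF (v + w) = D.FF v * D.FF w := by
  unfold FF
  rw [← map_mul]
  rfl

theorem FF_zero : D.FF 0 = 1 := by
  unfold FF
  exact map_one D.Psi

theorem FF_neg (v : Fin m → ℤ) : D.FF (-v) = (D.FF v)⁻¹ := by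
  have := D.FF_add (-v) v
  rw [neg_add_cancel, FF_zero] at this
  exact eq_inv_of_mul_eq_one_left this.symm

theorem FF_single (i : Fin m) : D.FF (Pi.single i 1) = D.TT i := by
  classical
  unfold FF Psi
  have h1 : (fun k => Multiplicative.ofAdd ((Pi.single i 1 : Fin m → ℤ) k)) =
      Pi.mulSingle i (Multiplicative.ofAdd (1 : ℤ)) := by
    funext k
    by_cases hk : k = i
    · subst hk; simp
    · simp [Pi.single_eq_of_ne hk, Pi.mulSingle_eq_of_ne hk]
  rw [h1, MonoidHom.noncommPiCoprod_mulSingle]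
  simp

theorem FF_perm (v : Fin m → ℤ) (x : (Fin m → ℤ) ⧸ L) :
    (D.FF v).perm x = x + (v : (Fin m → ℤ) ⧸ L) := by
  induction v using V_induction' generalizing x with
  | h0 => rw [FF_zero]; simp
  | hp v i ih =>
    rw [add_comm v, FF_add, FF_single, Sk.mul_perm, Equiv.Perm.mul_apply, ih]
    simp only [TT, Equiv.coe_addRight]
    rw [QuotientAddGroup.mk_add]
    abel
  | hm v i ih =>
    rw [sub_eq_add_neg, add_comm v, FF_add, FF_neg, FF_single, Sk.mul_perm,
      Equiv.Perm.mul_apply, ih, Sk.inv_perm, Equiv.Perm.inv_def, Equiv.symm_apply_eq]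
    simp only [TT, Equiv.coe_addRight]
    rw [QuotientAddGroup.mk_add, QuotientAddGroup.mk_neg]
    abel

theorem FF_add_val (v w : Fin m → ℤ) (x : (Fin m → ℤ) ⧸ L) :
    (D.FF (v + w)).val x = (D.FF v).val (x + (w : (Fin m → ℤ) ⧸ L)) * (D.FF w).val x := by
  rw [FF_add, Sk.mul_val, FF_perm]

theorem FF_neg_val (v : Fin m → ℤ) (x : (Fin m → ℤ) ⧸ L) :
    (D.FF (-v)).val x = ((D.FF v).val (x - (v : (Fin m → ℤ) ⧸ L)))⁻¹ := by
  have := D.FF_add_val v (-v) x
  rw [add_neg_cancel, FF_zero, Sk.one_val, QuotientAddGroup.mk_neg, ← sub_eq_add_neg] at this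
  exact eq_inv_of_mul_eq_one_right this.symm

theorem FF_spec (v : Fin m → ℤ) (x : (Fin m → ℤ) ⧸ L) :
    pr ((D.FF v).val x) * D.f x = D.f (x + (v : (Fin m → ℤ) ⧸ L)) := by
  induction v using V_induction' generalizing x with
  | h0 => rw [FF_zero]; simp
  | hp v i ih =>
    rw [add_comm v, FF_add_val, map_mul, mul_assoc, ih, FF_single]
    simp only [TT]
    rw [pr_mk, ← D.wf_spec, QuotientAddGroup.mk_add]
    congr 1
    abel
  | hm v i ih =>
    have h5 : v - Pi.single i 1 = -Pi.single i 1 + v := by abel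
    rw [h5, FF_add_val, map_mul, mul_assoc, ih, FF_neg_val, FF_single]
    simp only [TT]
    rw [map_inv, pr_mk, inv_mul_eq_iff_eq_mul]
    have h6 := D.wf_spec (x + (v : (Fin m → ℤ) ⧸ L) - ((Pi.single i 1 : Fin m → ℤ) : (Fin m → ℤ) ⧸ L)) i
    rw [sub_add_cancel] at h6
    rw [h6]
    congr 2
    rw [QuotientAddGroup.mk_add, QuotientAddGroup.mk_neg]
    abel

theorem FF_norm (v : Fin m → ℤ) (x : (Fin m → ℤ) ⧸ L) :
    ∃ w : FreeGroup (Fin n), (w : FreeGroup (Fin n) ⧸ RR c N) = (D.FF v).val x ∧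
      w.norm ≤ c * nrm v := by
  induction v using V_induction generalizing x with
  | h0 => exact ⟨1, by rw [FF_zero]; rfl, by simp⟩
  | hp v i hi ih =>
    obtain ⟨w, hw, hwn⟩ := ih x
    refine ⟨D.wf (x + (v : (Fin m → ℤ) ⧸ L)) i * w, ?_, ?_⟩
    · rw [add_comm v, FF_add_val, FF_single, QuotientGroup.mk_mul, hw]
      rfl
    · have h1 := nrm_add_single v i 1
      have h2 := FreeGroup.norm_mul_le (D.wf (x + (v : (Fin m → ℤ) ⧸ L)) i) w
      have h3 := D.wf_norm (x + (v : (Fin m → ℤ) ⧸ L)) i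
      have h4 : nrm (v + Pi.single i 1) = nrm v + 1 := by omega
      rw [h4, mul_add, mul_one]
      omega
  | hm v i hi ih =>
    obtain ⟨w, hw, hwn⟩ := ih x
    refine ⟨(D.wf (x + (v : (Fin m → ℤ) ⧸ L) - ((Pi.single i 1 : Fin m → ℤ) : (Fin m → ℤ) ⧸ L)) i)⁻¹ * w, ?_, ?_⟩
    · have h5 : v - Pi.single i 1 = -Pi.single i 1 + v := by abel
      rw [h5, FF_add_val, FF_neg_val, FF_single, QuotientGroup.mk_mul, hw]
      rfl
    · have h1 := nrm_add_single v i (-1)
      have h0 : v + Pi.single i (-1) = v - Pi.single i 1 := by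
        rw [Pi.single_neg]; rfl
      rw [h0] at h1
      have h2 := FreeGroup.norm_mul_le (D.wf (x + (v : (Fin m → ℤ) ⧸ L) - ((Pi.single i 1 : Fin m → ℤ) : (Fin m → ℤ) ⧸ L)) i)⁻¹ w
      rw [FreeGroup.norm_inv_eq] at h2
      have h3 := D.wf_norm (x + (v : (Fin m → ℤ) ⧸ L) - ((Pi.single i 1 : Fin m → ℤ) : (Fin m → ℤ) ⧸ L)) i
      have h4 : nrm (v - Pi.single i 1) = nrm v + 1 := by omega
      rw [h4, mul_add, mul_one]
      omega

end CoarseData

end Pool.Agent.H.MP_a7957c_al
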