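import Mathlib
import Pool.Agent.H.MP_a7957c_al.CoarsePi

/-! The isomorphism `N / R ≅ ℤ ^ m`. -/

set_option autoImplicit false

namespace Pool.Agent.H.MP_a7957c_al

open Module

namespace CoarseData

variable {n m c : ℕ} {N : Subgroup (FreeGroup (Fin n))} [hN : N.Normal]
  {L : AddSubgroup (Fin m → ℤ)} (D : CoarseData n m c N L)
  (hsys : ∀ v ∈ L, nrm v ≤ ss c → v = 0)

/-- local identity (*) -/
theorem del_wf (x : (Fin m → ℤ) ⧸ L) (i : Fin m)
    (hsys : ∀ v ∈ L, nrm v ≤ ss c → v = 0) :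
    D.del (D.wf x i) (D.f x) = Pi.single i 1 +
      D.sg (x + ((Pi.single i 1 : Fin m → ℤ) : (Fin m → ℤ) ⧸ L)) - D.sg x := by
  set s1 := D.sg (x + ((Pi.single i 1 : Fin m → ℤ) : (Fin m → ℤ) ⧸ L)) with hs1
  rw [← sub_eq_zero]
  apply hsys
  · rw [← QuotientAddGroup.eq_zero_iff]
    have h1 := D.del_spec (D.wf x i) (D.f x)
    rw [← D.wf_spec, D.sg_spec, D.sg_spec] at h1
    rw [← hs1] at h1
    have h2 : ((D.del (D.wf x i) (D.f x) : Fin m → ℤ) : (Fin m → ℤ) ⧸ L) =
        ((Pi.single i 1 : Fin m → ℤ) : (Fin m → ℤ) ⧸ L) + (s1 : (Fin m → ℤ) ⧸ L)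
          - ((D.sg x : Fin m → ℤ) : (Fin m → ℤ) ⧸ L) := by
      have h3 := eq_sub_of_add_eq' h1.symm
      rw [h3]
      abel
    rw [QuotientAddGroup.mk_sub, QuotientAddGroup.mk_sub, QuotientAddGroup.mk_add, h2, sub_self]
  · have a1 := D.del_norm (D.wf x i) (D.f x)
    have a2 := D.wf_norm x i
    have a3 : c * (D.wf x i).norm ≤ c * c := Nat.mul_le_mul_left _ a2
    have a4 := nrm_sub (D.del (D.wf x i) (D.f x)) (Pi.single i 1 + s1 - D.sg x)
    have a5 := nrm_sub (Pi.single i 1 + s1) (D.sg x)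
    have a6 := nrm_add (Pi.single i 1) s1
    have a7 : nrm (Pi.single i 1 : Fin m → ℤ) = 1 := by rw [nrm_single]; rfl
    have a8 := D.sg_norm (x + ((Pi.single i 1 : Fin m → ℤ) : (Fin m → ℤ) ⧸ L))
    have a9 := D.sg_norm x
    rw [← hs1] at a8
    have a10 : 0 ≤ c * rr c := Nat.zero_le _
    unfold ss
    omega

/-- global identity E -/
theorem delB_FF (v : Fin m → ℤ) :
    D.delB hsys ((D.FF v).val 0) (D.f 0) = v + D.sg (v : (Fin m → ℤ) ⧸ L) - D.sg 0 := by
  -- one step
  have step : ∀ (v : Fin m → ℤ) (i : Fin m),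
      D.delB hsys ((D.FF (v + Pi.single i 1)).val 0) (D.f 0) =
        D.delB hsys ((D.FF v).val 0) (D.f 0) + Pi.single i 1 +
          D.sg ((v + Pi.single i 1 : Fin m → ℤ) : (Fin m → ℤ) ⧸ L) - D.sg (v : (Fin m → ℤ) ⧸ L) := by
    intro v i
    rw [add_comm v, FF_add_val, delB_mul, FF_spec, zero_add, FF_single]
    simp only [TT]
    rw [delB_mk, del_wf D _ i hsys, add_comm (Pi.single i 1) v, QuotientAddGroup.mk_add]
    abel
  induction v using V_induction' with
  | h0 =>
    rw [FF_zero, Sk.one_val]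
    have : D.delB hsys (1 : FreeGroup (Fin n) ⧸ RR c N) (D.f 0) = 0 := by
      have := D.delB_mk hsys 1 (D.f 0)
      rw [del_one] at this
      exact this
    rw [this, QuotientAddGroup.mk_zero]
    abel
  | hp v i ih =>
    rw [step, ih]
    abel
  | hm v i ih =>
    have h1 := step (v - Pi.single i 1) i
    rw [sub_add_cancel, ih] at h1
    have h2 : D.delB hsys ((D.FF (v - Pi.single i 1)).val 0) (D.f 0) =
        (v + D.sg (v : (Fin m → ℤ) ⧸ L) - D.sg 0) - Pi.single i 1 - D.sg (v : (Fin m → ℤ) ⧸ L)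
          + D.sg ((v - Pi.single i 1 : Fin m → ℤ) : (Fin m → ℤ) ⧸ L) := by
      rw [h1]; abel
    rw [h2]
    abel

/-- identity H -/
theorem FF_del (g : FreeGroup (Fin n)) (y : FreeGroup (Fin n) ⧸ N) :
    (D.FF (D.del g y)).val (D.h y) =
      ((D.ta ((g : FreeGroup (Fin n) ⧸ N) * y) * g * (D.ta y)⁻¹ : FreeGroup (Fin n)) :
        FreeGroup (Fin n) ⧸ RR c N) := by
  induction g using FreeGroup.induction_on generalizing y with
  | C1 =>
    rw [del_one, FF_zero, Sk.one_val, QuotientGroup.mk_one, one_mul, mul_one, mul_inv_cancel,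
      QuotientGroup.mk_one]
  | of j =>
    obtain ⟨w, hw, hwn⟩ := D.FF_norm (D.del (FreeGroup.of j) y) (D.h y)
    rw [← hw]
    apply short_eq
    · have h1 := D.FF_spec (D.del (FreeGroup.of j) y) (D.h y)
      rw [← hw, pr_mk, ← del_spec, D.ta_spec, D.ta_spec] at h1
      rw [QuotientGroup.mk_mul, QuotientGroup.mk_mul, QuotientGroup.mk_inv, eq_mul_inv_iff_mul_eq]
      rw [← mul_assoc, ← mul_assoc] at h1
      exact mul_right_cancel h1
    · have a1 : nrm (D.del (FreeGroup.of j) y) ≤ c := by rw [del_of]; exact D.vh_norm _ _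
      have a2 : c * nrm (D.del (FreeGroup.of j) y) ≤ c * c := Nat.mul_le_mul_left _ a1
      have a3 := FreeGroup.norm_mul_le (D.ta ((FreeGroup.of j : FreeGroup (Fin n) ⧸ N) * y) * FreeGroup.of j)
        (D.ta y)⁻¹
      have a4 := FreeGroup.norm_mul_le (D.ta ((FreeGroup.of j : FreeGroup (Fin n) ⧸ N) * y)) (FreeGroup.of j)
      have a5 := D.ta_norm ((FreeGroup.of j : FreeGroup (Fin n) ⧸ N) * y)
      have a6 := D.ta_norm y
      rw [FreeGroup.norm_inv_eq] at a3
      rw [FreeGroup.norm_of] at a4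
      unfold rr
      omega
  | inv_of j ih =>
    rw [del_inv, FF_neg_val]
    set y' := (((FreeGroup.of j)⁻¹ : FreeGroup (Fin n)) * y : FreeGroup (Fin n) ⧸ N) with hy'
    have h1 := D.del_spec (FreeGroup.of j) y'
    have h2 : (FreeGroup.of j : FreeGroup (Fin n) ⧸ N) * y' = y := by
      rw [hy', QuotientGroup.mk_inv, mul_inv_cancel_left]
    rw [h2] at h1
    rw [h1, add_sub_cancel_right, ih, h2, ← QuotientGroup.mk_inv]
    congr 1
    rw [mul_inv_rev, mul_inv_rev, inv_inv, mul_assoc]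
  | mul a b iha ihb =>
    have hab : ((a * b : FreeGroup (Fin n)) : FreeGroup (Fin n) ⧸ N) * y =
        (a : FreeGroup (Fin n) ⧸ N) * ((b : FreeGroup (Fin n) ⧸ N) * y) := by
      rw [QuotientGroup.mk_mul, mul_assoc]
    rw [del_mul, FF_add_val, ← del_spec, iha, ihb, ← QuotientGroup.mk_mul, hab]
    congr 1
    group

/-- `θ` -/
def theta : N →* Multiplicative L where
  toFun g := Multiplicative.ofAdd ⟨D.del g (D.f 0), by
    have := D.del_spec g (D.f 0)
    rw [(QuotientGroup.eq_one_iff (g : FreeGroup (Fin n))).mpr g.2, one_mul] at this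
    have h2 : ((D.del g (D.f 0) : Fin m → ℤ) : (Fin m → ℤ) ⧸ L) = 0 := by
      have h3 := this.symm
      rwa [add_eq_left] at h3
    exact (QuotientAddGroup.eq_zero_iff _).mp h2⟩
  map_one' := by
    apply Multiplicative.toAdd.injective
    apply Subtype.ext
    exact D.del_one _
  map_mul' g g' := by
    apply Multiplicative.toAdd.injective
    apply Subtype.ext
    have := D.del_mul g g' (D.f 0)
    rw [(QuotientGroup.eq_one_iff (g' : FreeGroup (Fin n))).mpr g'.2, one_mul] at this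
    exact this

theorem theta_ker (hsys : ∀ v ∈ L, nrm v ≤ ss c → v = 0) :
    D.theta.ker = (RR c N).subgroupOf N := by
  ext g
  rw [MonoidHom.mem_ker, Subgroup.mem_subgroupOf]
  constructor
  · intro h
    have h1 : D.del g (D.f 0) = 0 := congrArg (fun z => ((Multiplicative.toAdd z : L) : Fin m → ℤ)) h
    have h2 := D.FF_del g (D.f 0)
    rw [h1, FF_zero, Sk.one_val, (QuotientGroup.eq_one_iff (g : FreeGroup (Fin n))).mpr g.2,
      one_mul, QuotientGroup.mk_mul, QuotientGroup.mk_mul, QuotientGroup.mk_inv] at h2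
    rw [← QuotientGroup.eq_one_iff]
    have h3 := h2.symm
    rw [mul_inv_eq_one, mul_eq_left] at h3
    exact h3
  · intro h
    have h1 := D.RR_le_ker hsys h
    rw [MonoidHom.mem_ker] at h1
    apply Multiplicative.toAdd.injective
    apply Subtype.ext
    change D.del g (D.f 0) = 0
    unfold del
    rw [h1]; rfl

theorem theta_surj (hsys : ∀ v ∈ L, nrm v ≤ ss c → v = 0) :
    Function.Surjective D.theta := by
  intro l
  obtain ⟨⟨v, hv⟩, rfl⟩ := Multiplicative.ofAdd.surjective l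
  obtain ⟨g, hg⟩ := QuotientGroup.mk_surjective ((D.FF v).val 0)
  have hv0 : (v : (Fin m → ℤ) ⧸ L) = 0 := (QuotientAddGroup.eq_zero_iff v).mpr hv
  have h1 := D.FF_spec v 0
  rw [← hg, pr_mk, hv0, add_zero, mul_eq_right] at h1
  have hgN : g ∈ N := (QuotientGroup.eq_one_iff g).mp h1
  have h2 := D.delB_FF hsys v
  rw [← hg, delB_mk, hv0, add_sub_cancel_right] at h2
  refine ⟨⟨g, hgN⟩, ?_⟩
  apply Multiplicative.toAdd.injective
  apply Subtype.ext
  exact h2

include D in
/-- Conclusion -/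
theorem coarse_pi1 (hsys : ∀ v ∈ L, nrm v ≤ ss c → v = 0) (hL : L.index ≠ 0) :
    Nonempty ((N.map (QuotientGroup.mk' (RR c N))) ≃* Multiplicative (Fin m → ℤ)) := by
  have hfi : L.FiniteIndex := ⟨hL⟩
  have : Module.Free ℤ L := inferInstanceAs (Module.Free ℤ L.toIntSubmodule)
  have : Module.Finite ℤ L := inferInstanceAs (Module.Finite ℤ L.toIntSubmodule)
  have hrank : finrank ℤ L = m := by
    rw [AddSubgroup.finrank_eq_of_finiteIndex L]; simp
  let b : Basis (Fin m) ℤ L := Module.finBasisOfFinrankEq ℤ L hrank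
  let e1 : L ≃+ (Fin m → ℤ) := b.equivFun.toAddEquiv
  let e2 : Multiplicative L ≃* Multiplicative (Fin m → ℤ) := AddEquiv.toMultiplicative e1
  let κ : N →* N.map (QuotientGroup.mk' (RR c N)) := (QuotientGroup.mk' (RR c N)).subgroupMap N
  have hκ : Function.Surjective κ := (QuotientGroup.mk' (RR c N)).subgroupMap_surjective N
  have hκker : κ.ker = (RR c N).subgroupOf N := by
    ext g
    rw [MonoidHom.mem_ker, Subgroup.mem_subgroupOf, ← QuotientGroup.eq_one_iff]
    constructor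
    · intro h
      exact congrArg Subtype.val h
    · intro h
      exact Subtype.ext h
  let i1 := QuotientGroup.quotientKerEquivOfSurjective κ hκ
  let i2 := QuotientGroup.quotientKerEquivOfSurjective D.theta (D.theta_surj hsys)
  have hk : κ.ker = D.theta.ker := by rw [hκker, D.theta_ker hsys]
  exact ⟨(i1.symm.trans (QuotientGroup.quotientMulEquivOfEq hk)).trans (i2.trans e2)⟩

end CoarseData

end Pool.Agent.H.MP_a7957c_al
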