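import Mathlib

/-! Coarse maps between full box spaces eventually map pieces to pieces. -/

set_option autoImplicit false

namespace Pool.Agent.H.MP_a7957c_al

/-- Finite index normal subgroups. -/
abbrev NI (k : ℕ) : Type := {N : Subgroup (FreeGroup (Fin k)) // N.Normal ∧ N.FiniteIndex}

/-- Points of the (pre-)box space. -/
abbrev BX (k : ℕ) : Type := NI k × FreeGroup (Fin k)

/-- A closeness relation that restricts to the word metric on pieces and such that only finitely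
many pieces are `R`-close to another piece. -/
structure BoxClose (k : ℕ) (C : ℕ → BX k → BX k → Prop) : Prop where
  same : ∀ (R : ℕ) (N : NI k) (a b : FreeGroup (Fin k)), C R (N, a) (N, b) ↔
    ∃ g : FreeGroup (Fin k), g.norm ≤ R ∧ g⁻¹ * a⁻¹ * b ∈ N.1
  fin : ∀ R : ℕ, ∃ S : Set (NI k), S.Finite ∧ ∀ p q : BX k, C R p q → p.1 ≠ q.1 → p.1 ∈ S ∧ q.1 ∈ S

/-- connectedness of the free group. -/
theorem free_conn {k : ℕ} (P : FreeGroup (Fin k) → Prop)
    (h1 : ∀ g i, P g → P (g * FreeGroup.of i)) (h2 : ∀ g i, P g → P (g * (FreeGroup.of i)⁻¹))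
    (g0 : FreeGroup (Fin k)) (h0 : P g0) : ∀ g, P g := by
  have key : ∀ u : FreeGroup (Fin k), ∀ g, P g → P (g * u) := by
    intro u
    induction u using FreeGroup.induction_on with
    | C1 => intro g hg; rwa [mul_one]
    | of i => intro g hg; exact h1 g i hg
    | inv_of i _ => intro g hg; exact h2 g i hg
    | mul a b iha ihb => intro g hg; rw [← mul_assoc]; exact ihb _ (iha _ hg)
  intro g
  have := key (g0⁻¹ * g) g0 h0
  rwa [mul_inv_cancel_left] at this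

theorem close_of {k : ℕ} {C : ℕ → BX k → BX k → Prop} (hC : BoxClose k C) (N : NI k)
    (g : FreeGroup (Fin k)) (i : Fin k) : C 1 (N, g) (N, g * FreeGroup.of i) := by
  rw [hC.same]
  refine ⟨FreeGroup.of i, by rw [FreeGroup.norm_of], ?_⟩
  have : (FreeGroup.of i)⁻¹ * g⁻¹ * (g * FreeGroup.of i) = 1 := by group
  rw [this]
  exact N.1.one_mem

theorem close_inv_of {k : ℕ} {C : ℕ → BX k → BX k → Prop} (hC : BoxClose k C) (N : NI k)
    (g : FreeGroup (Fin k)) (i : Fin k) : C 1 (N, g) (N, g * (FreeGroup.of i)⁻¹) := by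
  rw [hC.same]
  refine ⟨(FreeGroup.of i)⁻¹, by rw [FreeGroup.norm_inv_eq, FreeGroup.norm_of], ?_⟩
  have : ((FreeGroup.of i)⁻¹)⁻¹ * g⁻¹ * (g * (FreeGroup.of i)⁻¹) = 1 := by group
  rw [this]
  exact N.1.one_mem

/-- if a map on a piece starts outside the finite set `S` of pieces near others... -/
theorem stay {k l : ℕ} {C : ℕ → BX k → BX k → Prop} {C' : ℕ → BX l → BX l → Prop}
    (hC : BoxClose k C) (f : BX k → BX l) (c : ℕ)
    (hf : ∀ p q, C 1 p q → C' c (f p) (f q)) (S : Set (NI l))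
    (hS : ∀ p q : BX l, C' c p q → p.1 ≠ q.1 → p.1 ∈ S ∧ q.1 ∈ S) (N : NI k) (M : NI l)
    (hM : M ∉ S) (g0 : FreeGroup (Fin k)) (h0 : (f (N, g0)).1 = M) :
    ∀ g, (f (N, g)).1 = M := by
  apply free_conn (fun g => (f (N, g)).1 = M) _ _ g0 h0
  · intro g i hg
    by_contra hne
    have h1 := hf _ _ (close_of hC N g i)
    have h2 := (hS _ _ h1 (by rw [hg]; exact fun h => hne h.symm)).1
    rw [hg] at h2
    exact hM h2
  · intro g i hg
    by_contra hne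
    have h1 := hf _ _ (close_inv_of hC N g i)
    have h2 := (hS _ _ h1 (by rw [hg]; exact fun h => hne h.symm)).1
    rw [hg] at h2
    exact hM h2

/-- the image of finitely many pieces meets finitely many pieces. -/
theorem image_pieces_finite {k l : ℕ} {C : ℕ → BX k → BX k → Prop} {C' : ℕ → BX l → BX l → Prop}
    (hC : BoxClose k C) (hC' : BoxClose l C') (f : BX k → BX l) (c : ℕ)
    (hf : ∀ p q, C 0 p q → C' c (f p) (f q)) (S : Set (NI k)) (hS : S.Finite) :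
    {M : NI l | ∃ N ∈ S, ∃ g, (f (N, g)).1 = M}.Finite := by
  obtain ⟨S', hS', hS'2⟩ := hC'.fin c
  -- representatives
  have h1 : ∀ N : NI k, {M : NI l | ∃ g, (f (N, g)).1 = M}.Finite := by
    intro N
    have hN := N.2.2
    have hfin : Finite (FreeGroup (Fin k) ⧸ N.1) := inferInstance
    have h2 : {M : NI l | ∃ g, (f (N, g)).1 = M} ⊆
        S' ∪ Set.range (fun x : FreeGroup (Fin k) ⧸ N.1 => (f (N, Quotient.out x)).1) := by
      rintro M ⟨g, rfl⟩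
      by_cases h : (f (N, Quotient.out (g : FreeGroup (Fin k) ⧸ N.1))).1 = (f (N, g)).1
      · right
        exact ⟨(g : FreeGroup (Fin k) ⧸ N.1), h⟩
      · left
        have h3 : C 0 (N, Quotient.out (g : FreeGroup (Fin k) ⧸ N.1)) (N, g) := by
          rw [hC.same]
          refine ⟨1, by simp, ?_⟩
          rw [inv_one, one_mul, ← QuotientGroup.eq, QuotientGroup.out_eq']
        exact (hS'2 _ _ (hf _ _ h3) h).2
    exact (hS'.union (Set.finite_range _)).subset h2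
  have h2 : {M : NI l | ∃ N ∈ S, ∃ g, (f (N, g)).1 = M} =
      ⋃ N ∈ S, {M : NI l | ∃ g, (f (N, g)).1 = M} := by
    ext M; simp
  rw [h2]
  exact hS.biUnion fun N _ => h1 N

/-- The interface. -/
theorem pieces {n m : ℕ} {CX : ℕ → BX m → BX m → Prop} {CY : ℕ → BX n → BX n → Prop}
    (hX : BoxClose m CX) (hY : BoxClose n CY) (f : BX m → BX n) (h : BX n → BX m)
    (hf : ∀ R, ∃ S, ∀ p q, CX R p q → CY S (f p) (f q))
    (hh : ∀ R, ∃ S, ∀ p q, CY R p q → CX S (h p) (h q))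
    (hhf : ∃ C, ∀ p, CX C (h (f p)) p) (hfh : ∃ C, ∀ q, CY C (f (h q)) q) :
    ∃ (c : ℕ) (bad : Set (NI m)) (φ : NI m → NI n) (ψ : NI n → NI m), bad.Finite ∧
      ∀ M, M ∉ bad → ψ (φ M) = M ∧ ∃ (F : FreeGroup (Fin m) → FreeGroup (Fin n))
        (H : FreeGroup (Fin n) → FreeGroup (Fin m)),
        (∀ g g' w : FreeGroup (Fin m), w.norm ≤ 1 → w⁻¹ * g⁻¹ * g' ∈ M.1 →
          ∃ w' : FreeGroup (Fin n), w'.norm ≤ c ∧ w'⁻¹ * (F g)⁻¹ * F g' ∈ (φ M).1) ∧
        (∀ g g' w : FreeGroup (Fin n), w.norm ≤ 1 → w⁻¹ * g⁻¹ * g' ∈ (φ M).1 →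
          ∃ w' : FreeGroup (Fin m), w'.norm ≤ c ∧ w'⁻¹ * (H g)⁻¹ * H g' ∈ M.1) ∧
        (∀ g, ∃ w : FreeGroup (Fin m), w.norm ≤ c ∧ w⁻¹ * (H (F g))⁻¹ * g ∈ M.1) ∧
        (∀ g, ∃ w : FreeGroup (Fin n), w.norm ≤ c ∧ w⁻¹ * (F (H g))⁻¹ * g ∈ (φ M).1) := by
  obtain ⟨c1, hc1⟩ := hf 1
  obtain ⟨c2, hc2⟩ := hh 1
  obtain ⟨c3, hc3⟩ := hh 0
  obtain ⟨C1, hC1⟩ := hhf
  obtain ⟨C2, hC2⟩ := hfh
  obtain ⟨SX1, hSX1, hSX1'⟩ := hX.fin C1
  obtain ⟨SX2, hSX2, hSX2'⟩ := hX.fin c2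
  obtain ⟨SY, hSY, hSY'⟩ := hY.fin c1
  have hB := image_pieces_finite hY hX h c3 hc3 SY hSY
  set B := {M : NI m | ∃ N ∈ SY, ∃ g, (h (N, g)).1 = M} with hBdef
  refine ⟨c1 + c2 + C1 + C2, SX1 ∪ SX2 ∪ B, fun M => (f (M, 1)).1, fun N => (h (N, 1)).1,
    (hSX1.union hSX2).union hB, ?_⟩
  intro M hM
  simp only [Set.mem_union, not_or] at hM
  obtain ⟨⟨hM1, hM2⟩, hM3⟩ := hM
  have hhfM : ∀ g, (h (f (M, g))).1 = M := by
    intro g
    by_contra hne
    exact hM1 (hSX1' _ _ (hC1 (M, g)) hne).2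
  have hfS : ∀ g, (f (M, g)).1 ∉ SY := by
    intro g hg
    apply hM3
    exact ⟨(f (M, g)).1, hg, (f (M, g)).2, hhfM g⟩
  have hfM : ∀ g, (f (M, g)).1 = (f (M, 1)).1 :=
    stay hX f c1 hc1 SY hSY' M (f (M, 1)).1 (hfS 1) 1 rfl
  set N := (f (M, 1)).1 with hN
  have hhN : ∀ g, (h (N, g)).1 = M := by
    apply stay hY h c2 hc2 SX2 hSX2' N M hM2 (f (M, 1)).2
    exact hhfM 1
  have hfeq : ∀ g, f (M, g) = (N, (f (M, g)).2) := fun g => Prod.ext (hfM g) rfl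
  have hheq : ∀ g, h (N, g) = (M, (h (N, g)).2) := fun g => Prod.ext (hhN g) rfl
  refine ⟨hhN 1, fun g => (f (M, g)).2, fun g => (h (N, g)).2, ?_, ?_, ?_, ?_⟩
  · intro g g' w hw hwM
    have h1 : CX 1 (M, g) (M, g') := (hX.same _ _ _ _).mpr ⟨w, hw, hwM⟩
    have h2 := hc1 _ _ h1
    rw [hfeq g, hfeq g', hY.same] at h2
    obtain ⟨w', hw', hw'2⟩ := h2
    exact ⟨w', by omega, hw'2⟩
  · intro g g' w hw hwM
    have h1 : CY 1 (N, g) (N, g') := (hY.same _ _ _ _).mpr ⟨w, hw, hwM⟩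
    have h2 := hc2 _ _ h1
    rw [hheq g, hheq g', hX.same] at h2
    obtain ⟨w', hw', hw'2⟩ := h2
    exact ⟨w', by omega, hw'2⟩
  · intro g
    have h1 := hC1 (M, g)
    rw [hfeq g, hheq, hX.same] at h1
    obtain ⟨w, hw, hw2⟩ := h1
    exact ⟨w, by omega, hw2⟩
  · intro g
    have h1 := hC2 (N, g)
    rw [hheq g, hfeq, hY.same] at h1
    obtain ⟨w, hw, hw2⟩ := h1
    exact ⟨w, by omega, hw2⟩

end Pool.Agent.H.MP_a7957c_al
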