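import Mathlib
import Pool.Agent.H.MP_a7957c_al.CoarsePi2
import Pool.Agent.H.MP_a7957c_al.Pieces

/-! Torus quotients of `F_m`, and coarse data from the interface. -/

set_option autoImplicit false

namespace Pool.Agent.H.MP_a7957c_al

open Module

/-- Abelianization `F_m → ℤ ^ m`. -/
def ab (m : ℕ) : FreeGroup (Fin m) →* Multiplicative (Fin m → ℤ) :=
  FreeGroup.lift (fun i => Multiplicative.ofAdd (Pi.single i 1))

/-- additive version -/
def abV {m : ℕ} (g : FreeGroup (Fin m)) : Fin m → ℤ := Multiplicative.toAdd (ab m g)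

theorem abV_mul {m : ℕ} (g g' : FreeGroup (Fin m)) : abV (g * g') = abV g + abV g' := by
  unfold abV; rw [map_mul]; rfl

theorem abV_one {m : ℕ} : abV (1 : FreeGroup (Fin m)) = 0 := by
  unfold abV; rw [map_one]; rfl

theorem abV_inv {m : ℕ} (g : FreeGroup (Fin m)) : abV g⁻¹ = - abV g := by
  unfold abV; rw [map_inv]; rfl

theorem abV_of {m : ℕ} (i : Fin m) : abV (FreeGroup.of i) = Pi.single i 1 := by
  unfold abV ab; rw [FreeGroup.lift_apply_of]; rfl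

theorem abV_norm {m : ℕ} (g : FreeGroup (Fin m)) : nrm (abV g) ≤ g.norm := by
  have := le_mul_norm 1 (fun g : FreeGroup (Fin m) => nrm (abV g))
    (by simp only [abV_one, nrm_zero])
    (by intro a b; simp only [abV_mul]; exact nrm_add _ _)
    (by intro i; simp only [abV_of, nrm_single]; decide)
    (by intro i; simp only [abV_inv, nrm_neg, abV_of, nrm_single]; decide) g
  rwa [one_mul] at this

theorem abV_surj {m : ℕ} (v : Fin m → ℤ) : ∃ g : FreeGroup (Fin m), abV g = v := by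
  induction v using V_induction' with
  | h0 => exact ⟨1, abV_one⟩
  | hp v i ih =>
    obtain ⟨g, rfl⟩ := ih
    exact ⟨g * FreeGroup.of i, by rw [abV_mul, abV_of]⟩
  | hm v i ih =>
    obtain ⟨g, rfl⟩ := ih
    exact ⟨g * (FreeGroup.of i)⁻¹, by rw [abV_mul, abV_inv, abV_of]; rfl⟩

theorem ab_surj (m : ℕ) : Function.Surjective (ab m) := by
  intro v
  obtain ⟨g, hg⟩ := abV_surj (Multiplicative.toAdd v)
  exact ⟨g, Multiplicative.toAdd.injective hg⟩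

/-- The kernel of `F_m → ℤ ^ m ⧸ L`. -/
def ML {m : ℕ} (L : AddSubgroup (Fin m → ℤ)) : Subgroup (FreeGroup (Fin m)) :=
  (AddSubgroup.toSubgroup L).comap (ab m)

theorem mem_ML {m : ℕ} (L : AddSubgroup (Fin m → ℤ)) (g : FreeGroup (Fin m)) :
    g ∈ ML L ↔ abV g ∈ L := Iff.rfl

instance {m : ℕ} (L : AddSubgroup (Fin m → ℤ)) : (ML L).Normal := by
  unfold ML
  infer_instance

theorem ML_index {m : ℕ} (L : AddSubgroup (Fin m → ℤ)) : (ML L).index = L.index := by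
  unfold ML
  rw [Subgroup.index_comap_of_surjective _ (ab_surj m), AddSubgroup.index_toSubgroup]

/-- as a piece. -/
def MLp {m : ℕ} (L : AddSubgroup (Fin m → ℤ)) (hL : L.index ≠ 0) : NI m :=
  ⟨ML L, inferInstance, ⟨by rw [ML_index]; exact hL⟩⟩

theorem ML_injective {m : ℕ} {L L' : AddSubgroup (Fin m → ℤ)} (h : ML L = ML L') : L = L' := by
  ext v
  obtain ⟨g, rfl⟩ := abV_surj v
  rw [← mem_ML, ← mem_ML, h]

/-- representative of a class of `ℤ ^ m ⧸ L`. -/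
noncomputable def rep {m : ℕ} {L : AddSubgroup (Fin m → ℤ)} (x : (Fin m → ℤ) ⧸ L) :
    FreeGroup (Fin m) := Classical.choose (abV_surj (Quotient.out x))

theorem rep_spec {m : ℕ} {L : AddSubgroup (Fin m → ℤ)} (x : (Fin m → ℤ) ⧸ L) :
    ((abV (rep x) : Fin m → ℤ) : (Fin m → ℤ) ⧸ L) = x := by
  unfold rep
  rw [Classical.choose_spec (abV_surj (Quotient.out x))]
  exact QuotientAddGroup.out_eq' x

theorem mem_ML_iff3 {m : ℕ} {L : AddSubgroup (Fin m → ℤ)} (w g g' : FreeGroup (Fin m)) :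
    w⁻¹ * g⁻¹ * g' ∈ ML L ↔ ((abV g' : Fin m → ℤ) : (Fin m → ℤ) ⧸ L) =
      ((abV g : Fin m → ℤ) : (Fin m → ℤ) ⧸ L) + ((abV w : Fin m → ℤ) : (Fin m → ℤ) ⧸ L) := by
  rw [mem_ML, abV_mul, abV_mul, abV_inv, abV_inv, ← QuotientAddGroup.eq_zero_iff,
    QuotientAddGroup.mk_add, QuotientAddGroup.mk_add, QuotientAddGroup.mk_neg,
    QuotientAddGroup.mk_neg]
  constructor
  · intro h
    rw [add_eq_zero_iff_neg_eq] at h
    rw [← h]; abel
  · intro h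
    rw [h]; abel

theorem mem_iff3 {n : ℕ} {N : Subgroup (FreeGroup (Fin n))} [N.Normal] (w g g' : FreeGroup (Fin n)) :
    w⁻¹ * g⁻¹ * g' ∈ N ↔ (g' : FreeGroup (Fin n) ⧸ N) =
      (g : FreeGroup (Fin n) ⧸ N) * (w : FreeGroup (Fin n) ⧸ N) := by
  rw [← QuotientGroup.eq_one_iff, QuotientGroup.mk_mul, QuotientGroup.mk_mul, QuotientGroup.mk_inv,
    QuotientGroup.mk_inv, mul_assoc, inv_mul_eq_one, eq_inv_mul_iff_mul_eq]
  exact eq_comm

/-- Coarse data from the interface. -/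
theorem exists_coarseData {n m c : ℕ} {N : Subgroup (FreeGroup (Fin n))} [N.Normal]
    {L : AddSubgroup (Fin m → ℤ)}
    (F : FreeGroup (Fin m) → FreeGroup (Fin n)) (H : FreeGroup (Fin n) → FreeGroup (Fin m))
    (h1 : ∀ g g' w : FreeGroup (Fin m), w.norm ≤ 1 → w⁻¹ * g⁻¹ * g' ∈ ML L →
          ∃ w' : FreeGroup (Fin n), w'.norm ≤ c ∧ w'⁻¹ * (F g)⁻¹ * F g' ∈ N)
    (h2 : ∀ g g' w : FreeGroup (Fin n), w.norm ≤ 1 → w⁻¹ * g⁻¹ * g' ∈ N →
          ∃ w' : FreeGroup (Fin m), w'.norm ≤ c ∧ w'⁻¹ * (H g)⁻¹ * H g' ∈ ML L)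
    (h3 : ∀ g, ∃ w : FreeGroup (Fin m), w.norm ≤ c ∧ w⁻¹ * (H (F g))⁻¹ * g ∈ ML L)
    (h4 : ∀ g, ∃ w : FreeGroup (Fin n), w.norm ≤ c ∧ w⁻¹ * (F (H g))⁻¹ * g ∈ N) :
    Nonempty (CoarseData n m (2 * c) N L) := by
  classical
  simp only [mem_ML_iff3] at h1 h2 h3
  simp only [mem_iff3] at h1 h2 h4
  let fb : (Fin m → ℤ) ⧸ L → FreeGroup (Fin n) ⧸ N := fun x =>
    ((F (rep x) : FreeGroup (Fin n)) : FreeGroup (Fin n) ⧸ N)⁻¹
  let ou : FreeGroup (Fin n) ⧸ N → FreeGroup (Fin n) := fun y =>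
    Quotient.out (y⁻¹ : FreeGroup (Fin n) ⧸ N)
  have hou : ∀ y, ((ou y : FreeGroup (Fin n)) : FreeGroup (Fin n) ⧸ N) = y⁻¹ := fun y =>
    QuotientGroup.out_eq' (y⁻¹ : FreeGroup (Fin n) ⧸ N)
  let hb : FreeGroup (Fin n) ⧸ N → (Fin m → ℤ) ⧸ L := fun y =>
    ((abV (H (ou y)) : Fin m → ℤ) : (Fin m → ℤ) ⧸ L)
  have e1 : ∀ (x : (Fin m → ℤ) ⧸ L) (i : Fin m), ∃ w : FreeGroup (Fin n), w.norm ≤ 2 * c ∧
      fb (x + ((Pi.single i 1 : Fin m → ℤ) : (Fin m → ℤ) ⧸ L)) =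
        (w : FreeGroup (Fin n) ⧸ N) * fb x := by
    intro x i
    obtain ⟨w, hw, hw2⟩ := h1 (rep x) (rep (x + ((Pi.single i 1 : Fin m → ℤ) : (Fin m → ℤ) ⧸ L)))
      (FreeGroup.of i) (by rw [FreeGroup.norm_of]) (by rw [rep_spec, rep_spec, abV_of])
    refine ⟨w⁻¹, by rw [FreeGroup.norm_inv_eq]; omega, ?_⟩
    simp only [fb]
    rw [hw2, mul_inv_rev, QuotientGroup.mk_inv]
  have e2 : ∀ (y : FreeGroup (Fin n) ⧸ N) (j : Fin n), ∃ v : Fin m → ℤ, nrm v ≤ 2 * c ∧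
      hb ((FreeGroup.of j : FreeGroup (Fin n) ⧸ N) * y) = hb y + (v : (Fin m → ℤ) ⧸ L) := by
    intro y j
    obtain ⟨w, hw, hw2⟩ := h2 (ou y) (ou ((FreeGroup.of j : FreeGroup (Fin n) ⧸ N) * y))
      (FreeGroup.of j)⁻¹ (by rw [FreeGroup.norm_inv_eq, FreeGroup.norm_of])
      (by rw [hou, hou, mul_inv_rev, QuotientGroup.mk_inv])
    exact ⟨abV w, le_trans (abV_norm w) (by omega), hw2⟩
  have e3 : ∀ x : (Fin m → ℤ) ⧸ L, ∃ v : Fin m → ℤ, nrm v ≤ 2 * c ∧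
      hb (fb x) = x + (v : (Fin m → ℤ) ⧸ L) := by
    intro x
    obtain ⟨w1, hw1, hw1'⟩ := h2 (ou (fb x)) (F (rep x)) 1 (by simp)
      (by rw [hou]; simp only [fb, inv_inv, QuotientGroup.mk_one, mul_one])
    obtain ⟨w2, hw2, hw2'⟩ := h3 (rep x)
    rw [rep_spec] at hw2'
    refine ⟨-(abV w1 + abV w2), ?_, ?_⟩
    · rw [nrm_neg]
      refine le_trans (nrm_add _ _) ?_
      have a1 := abV_norm w1
      have a2 := abV_norm w2
      omega
    · rw [QuotientAddGroup.mk_neg, QuotientAddGroup.mk_add]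
      have h5 : x = hb (fb x) + ((abV w1 : Fin m → ℤ) : (Fin m → ℤ) ⧸ L) +
          ((abV w2 : Fin m → ℤ) : (Fin m → ℤ) ⧸ L) := by
        rw [hw1'] at hw2'
        exact hw2'
      have h6 : hb (fb x) = x - ((abV w1 : Fin m → ℤ) : (Fin m → ℤ) ⧸ L) -
          ((abV w2 : Fin m → ℤ) : (Fin m → ℤ) ⧸ L) := by
        conv_rhs => rw [h5]
        abel
      rw [h6]; abel
  have e4 : ∀ y : FreeGroup (Fin n) ⧸ N, ∃ w : FreeGroup (Fin n), w.norm ≤ 2 * c ∧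
      fb (hb y) = (w : FreeGroup (Fin n) ⧸ N) * y := by
    intro y
    obtain ⟨w1, hw1, hw1'⟩ := h1 (rep (hb y)) (H (ou y)) 1 (by simp)
      (by rw [rep_spec, abV_one, QuotientAddGroup.mk_zero, add_zero])
    obtain ⟨w2, hw2, hw2'⟩ := h4 (ou y)
    rw [hou] at hw2'
    refine ⟨w1 * w2, ?_, ?_⟩
    · refine le_trans (FreeGroup.norm_mul_le _ _) ?_
      omega
    · simp only [fb]
      rw [hw1', mul_assoc] at hw2'
      rw [QuotientGroup.mk_mul, inv_eq_iff_mul_eq_one]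
      rw [inv_eq_iff_mul_eq_one] at hw2'
      have h7 : y = (((F (rep (hb y)) : FreeGroup (Fin n)) : FreeGroup (Fin n) ⧸ N) *
          ((w1 : FreeGroup (Fin n) ⧸ N) * (w2 : FreeGroup (Fin n) ⧸ N)))⁻¹ := by
        exact eq_inv_of_mul_eq_one_left hw2'
      have h8 : ∀ (A B y : FreeGroup (Fin n) ⧸ N), y = (A * B)⁻¹ → A * (B * y) = 1 := by
        intro A B y h
        rw [h]; group
      exact h8 _ _ _ h7
  choose wf hwf hwf' using e1
  choose vh hvh hvh' using e2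
  choose sg hsg hsg' using e3
  choose ta hta hta' using e4
  exact ⟨⟨fb, hb, wf, hwf, hwf', vh, hvh, hvh', sg, hsg, hsg', ta, hta, hta'⟩⟩

end Pool.Agent.H.MP_a7957c_al
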