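import Mathlib
import Pool.Agent.H.MP_a7957c_al.Torus

/-! A large family of lattices with large systole. -/

set_option autoImplicit false

namespace Pool.Agent.H.MP_a7957c_al

open Module

/-- the linear form. -/
def lform {j : ℕ} (q : ℕ) (a : Fin j → ℕ) : (Fin (j + 1) → ℤ) →+ ZMod q :=
  AddMonoidHom.mk' (fun x => (x 0 : ZMod q) + ∑ t, (a t : ZMod q) * (x t.succ : ZMod q)) (by
    intro x y
    simp only [Pi.add_apply, Int.cast_add, mul_add, Finset.sum_add_distrib]
    ring)

theorem lform_apply {j : ℕ} (q : ℕ) (a : Fin j → ℕ) (x : Fin (j + 1) → ℤ) :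
    lform q a x = (x 0 : ZMod q) + ∑ t, (a t : ZMod q) * (x t.succ : ZMod q) := rfl

theorem lform_surj {j : ℕ} (q : ℕ) [NeZero q] (a : Fin j → ℕ) :
    Function.Surjective (lform q a) := by
  intro z
  refine ⟨Pi.single 0 (z.val : ℤ), ?_⟩
  rw [lform_apply]
  simp

theorem lform_ker_index {j : ℕ} (q : ℕ) [NeZero q] (a : Fin j → ℕ) :
    (lform q a).ker.index = q := by
  rw [AddSubgroup.index_ker, AddMonoidHom.range_eq_top.mpr (lform_surj q a)]
  simp

theorem lform_ker_inj {j : ℕ} (q : ℕ) [NeZero q] (a a' : Fin j → ℕ) (ha : ∀ t, a t < q)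
    (ha' : ∀ t, a' t < q) (h : (lform q a).ker = (lform q a').ker) : a = a' := by
  funext t
  let v : Fin (j + 1) → ℤ := Pi.single t.succ 1 - Pi.single 0 (a t : ℤ)
  have hv0 : v 0 = - (a t : ℤ) := by
    simp [v]
  have hvs : ∀ s : Fin j, v s.succ = if s = t then 1 else 0 := by
    intro s
    have h1 : (Pi.single 0 (a t : ℤ) : Fin (j + 1) → ℤ) s.succ = 0 :=
      Pi.single_eq_of_ne (Fin.succ_ne_zero s) _
    simp only [v, Pi.sub_apply, h1, sub_zero]
    by_cases hs : s = t
    · subst hs; simp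
    · rw [if_neg hs, Pi.single_eq_of_ne]
      intro h2
      exact hs (Fin.succ_injective _ h2)
  have hval : ∀ b : Fin j → ℕ, lform q b v = (b t : ZMod q) - (a t : ZMod q) := by
    intro b
    rw [lform_apply, hv0]
    have : ∑ s, (b s : ZMod q) * ((v s.succ : ℤ) : ZMod q) = (b t : ZMod q) := by
      rw [Finset.sum_eq_single t]
      · rw [hvs, if_pos rfl]; simp
      · intro s _ hs
        rw [hvs, if_neg hs]; simp
      · simp
    rw [this]
    push_cast
    ring
  have h1 : v ∈ (lform q a).ker := by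
    rw [AddMonoidHom.mem_ker, hval, sub_self]
  rw [h, AddMonoidHom.mem_ker, hval, sub_eq_zero, ZMod.natCast_eq_natCast_iff] at h1
  exact (Nat.ModEq.eq_of_lt_of_lt h1 (ha' t) (ha t)).symm

/-- The scaled lattice. -/
def lat {j : ℕ} (k q : ℕ) (a : Fin j → ℕ) : AddSubgroup (Fin (j + 1) → ℤ) :=
  (lform q a).ker.map (nsmulAddMonoidHom (α := Fin (j + 1) → ℤ) k)

theorem lat_index {j : ℕ} (k q : ℕ) (hk : k ≠ 0) [NeZero q] (a : Fin j → ℕ) :
    (lat k q a).index = q * k ^ (j + 1) := by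
  have hinj : Function.Injective (nsmulAddMonoidHom (α := Fin (j + 1) → ℤ) k) :=
    AddSubgroup.nsmulAddMonoidHom_injective_of_isTorsionFree hk
  unfold lat
  rw [AddSubgroup.index_map_of_injective _ hinj, AddSubgroup.index_range_nsmul, lform_ker_index]
  simp

theorem lat_inj {j : ℕ} (k q q' : ℕ) (hk : k ≠ 0) [NeZero q] [NeZero q'] (a a' : Fin j → ℕ)
    (ha : ∀ t, a t < q) (ha' : ∀ t, a' t < q') (h : lat k q a = lat k q' a') :
    q = q' ∧ a = a' := by
  have h1 := lat_index k q hk a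
  rw [h, lat_index k q' hk a'] at h1
  have hq : q = q' := by
    have hk' : 0 < k ^ (j + 1) := by positivity
    exact (Nat.eq_of_mul_eq_mul_right hk' h1).symm
  subst hq
  refine ⟨rfl, ?_⟩
  have hinj : Function.Injective (nsmulAddMonoidHom (α := Fin (j + 1) → ℤ) k) :=
    AddSubgroup.nsmulAddMonoidHom_injective_of_isTorsionFree hk
  exact lform_ker_inj q a a' ha ha' (AddSubgroup.map_injective hinj h)

theorem lat_systole {j : ℕ} (k q : ℕ) (a : Fin j → ℕ) (v : Fin (j + 1) → ℤ)
    (hv : v ∈ lat k q a) (hn : nrm v < k) : v = 0 := by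
  obtain ⟨x, _, rfl⟩ := hv
  have h1 : nrm (nsmulAddMonoidHom (α := Fin (j + 1) → ℤ) k x) = k * nrm x := by
    unfold nrm
    rw [Finset.mul_sum]
    refine Finset.sum_congr rfl fun i _ => ?_
    simp [Int.natAbs_mul]
  rw [h1] at hn
  have h2 : nrm x = 0 := by
    by_contra hne
    have : k * 1 ≤ k * nrm x := Nat.mul_le_mul_left _ (Nat.one_le_iff_ne_zero.mpr hne)
    omega
  rw [nrm_eq_zero h2, map_zero]

end Pool.Agent.H.MP_a7957c_al
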