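import Mathlib

/-! The crossed homomorphism attached to a finite index normal subgroup `K₀ ≅ ℤ ^ m`. -/

set_option autoImplicit false

namespace Pool.Agent.H.MP_a7957c_al

open Finset Filter Module Topology

variable {Γ : Type} [Group Γ] {m : ℕ} (K₀ : Subgroup Γ) [hN : K₀.Normal] [hF : K₀.FiniteIndex]
  (e : K₀ ≃* Multiplicative (Fin m → ℤ))

/-- additive version of `e`. -/
def ev (k : K₀) : Fin m → ℤ := Multiplicative.toAdd (e k)

omit hN hF in
theorem ev_mul (k k' : K₀) : ev K₀ e (k * k') = ev K₀ e k + ev K₀ e k' := by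
  unfold ev
  rw [map_mul]; rfl

omit hN hF in
theorem ev_one : ev K₀ e 1 = 0 := by
  unfold ev
  rw [map_one]; rfl

omit hN hF in
theorem ev_pow (k : K₀) (n : ℕ) : ev K₀ e (k ^ n) = n • ev K₀ e k := by
  unfold ev
  rw [map_pow]; rfl

omit hN hF in
theorem ev_inj {k k' : K₀} (h : ev K₀ e k = ev K₀ e k') : k = k' := by
  unfold ev at h
  exact e.injective (Multiplicative.toAdd.injective h)

omit hN hF in
theorem ev_surj (v : Fin m → ℤ) : ∃ k, ev K₀ e k = v :=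
  ⟨e.symm (Multiplicative.ofAdd v), by unfold ev; simp⟩

omit hN hF in
include e in
theorem comm_K0 (k k' : K₀) : k * k' = k' * k := by
  apply e.injective
  rw [map_mul, map_mul, mul_comm]

/-- conjugation action on `ℤ ^ m`. -/
def rho (γ : Γ) : (Fin m → ℤ) →+ (Fin m → ℤ) :=
  AddMonoidHom.mk' (fun v => ev K₀ e (MulAut.conjNormal γ (e.symm (Multiplicative.ofAdd v)))) (by
    intro a b
    rw [ofAdd_add, map_mul, map_mul, ev_mul])

omit hF in
theorem rho_ev (γ : Γ) (k : K₀) : rho K₀ e γ (ev K₀ e k) = ev K₀ e (MulAut.conjNormal γ k) := by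
  have : rho K₀ e γ (ev K₀ e k) =
    ev K₀ e (MulAut.conjNormal γ (e.symm (Multiplicative.ofAdd (ev K₀ e k)))) := rfl
  rw [this]
  unfold ev
  rw [ofAdd_toAdd, e.symm_apply_apply]

omit hF in
theorem rho_mul (γ γ' : Γ) (v : Fin m → ℤ) :
    rho K₀ e (γ * γ') v = rho K₀ e γ (rho K₀ e γ' v) := by
  obtain ⟨k, rfl⟩ := ev_surj K₀ e v
  rw [rho_ev, rho_ev, rho_ev, map_mul]
  rfl

omit hF in
theorem rho_one (v : Fin m → ℤ) : rho K₀ e 1 v = v := by
  obtain ⟨k, rfl⟩ := ev_surj K₀ e v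
  rw [rho_ev, map_one]
  rfl

omit hF in
theorem rho_pow (γ : Γ) (n : ℕ) (v : Fin m → ℤ) : (rho K₀ e γ)^[n] v = rho K₀ e (γ ^ n) v := by
  induction n with
  | zero => rw [pow_zero, rho_one]; rfl
  | succ n ih => rw [Function.iterate_succ_apply', ih, pow_succ', rho_mul]

omit hF in
/-- elements commuting with `K₀` act trivially. -/
theorem rho_of_comm {γ : Γ} (h : ∀ k ∈ K₀, γ * k = k * γ) (v : Fin m → ℤ) :
    rho K₀ e γ v = v := by
  obtain ⟨k, rfl⟩ := ev_surj K₀ e v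
  rw [rho_ev]
  congr 1
  apply Subtype.ext
  rw [MulAut.conjNormal_apply, h k k.2, mul_inv_cancel_right]

omit hF in
theorem rho_mem {γ : Γ} (hγ : γ ∈ K₀) (v : Fin m → ℤ) :
    rho K₀ e γ v = v := by
  apply rho_of_comm
  intro k hk
  have := comm_K0 K₀ e ⟨γ, hγ⟩ ⟨k, hk⟩
  exact congrArg Subtype.val this

/-- the local cocycle. -/
noncomputable def bb (γ : Γ) (q : Γ ⧸ K₀) : K₀ :=
  ⟨γ * q.out * (((γ : Γ ⧸ K₀) * q).out)⁻¹, by
    rw [← QuotientGroup.eq_one_iff, QuotientGroup.mk_mul, QuotientGroup.mk_mul,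
      QuotientGroup.mk_inv, QuotientGroup.out_eq', QuotientGroup.out_eq', mul_inv_cancel]⟩

omit hF in
theorem bb_mul (γ γ' : Γ) (q : Γ ⧸ K₀) :
    bb K₀ (γ * γ') q = MulAut.conjNormal γ (bb K₀ γ' q) * bb K₀ γ ((γ' : Γ ⧸ K₀) * q) := by
  apply Subtype.ext
  rw [Subgroup.coe_mul, MulAut.conjNormal_apply]
  simp only [bb, QuotientGroup.mk_mul]
  rw [mul_assoc (γ : Γ ⧸ K₀)]
  group

omit hF in
theorem bb_mem {k : Γ} (hk : k ∈ K₀) (q : Γ ⧸ K₀) : bb K₀ k q = ⟨k, hk⟩ := by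
  apply Subtype.ext
  simp only [bb]
  have : (k : Γ ⧸ K₀) = 1 := (QuotientGroup.eq_one_iff k).mpr hk
  rw [this, one_mul, mul_inv_cancel_right]

noncomputable instance : Fintype (Γ ⧸ K₀) := Fintype.ofFinite _

/-- the crossed homomorphism. -/
noncomputable def cc (γ : Γ) : Fin m → ℤ := ∑ q : Γ ⧸ K₀, ev K₀ e (bb K₀ γ q)

theorem cc_mul (γ γ' : Γ) : cc K₀ e (γ * γ') = cc K₀ e γ + rho K₀ e γ (cc K₀ e γ') := by
  unfold cc
  have h1 : ∀ q, ev K₀ e (bb K₀ (γ * γ') q) =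
      rho K₀ e γ (ev K₀ e (bb K₀ γ' q)) + ev K₀ e (bb K₀ γ ((γ' : Γ ⧸ K₀) * q)) := by
    intro q
    rw [bb_mul, ev_mul, rho_ev]
  rw [Finset.sum_congr rfl (fun q _ => h1 q), Finset.sum_add_distrib, ← map_sum, add_comm]
  congr 1
  exact Fintype.sum_equiv (Equiv.mulLeft (γ' : Γ ⧸ K₀)) _ _ (fun q => rfl)

theorem cc_mem {k : Γ} (hk : k ∈ K₀) : cc K₀ e k = K₀.index • ev K₀ e ⟨k, hk⟩ := by
  unfold cc
  rw [Finset.sum_congr rfl (fun q _ => by rw [bb_mem K₀ hk])]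
  rw [Finset.sum_const, Finset.card_univ, Subgroup.index_eq_card, Nat.card_eq_fintype_card]

theorem cc_one : cc K₀ e 1 = 0 := by
  rw [cc_mem K₀ e K₀.one_mem]
  have : (⟨1, K₀.one_mem⟩ : K₀) = 1 := rfl
  rw [this, ev_one, smul_zero]

theorem cc_inv (γ : Γ) : rho K₀ e γ (cc K₀ e γ⁻¹) = - cc K₀ e γ := by
  have := cc_mul K₀ e γ γ⁻¹
  rw [mul_inv_cancel, cc_one] at this
  exact (neg_eq_of_add_eq_zero_right this.symm).symm

/-- `cc` on the centralizer is a homomorphism -/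
theorem cc_mul_of_comm {γ : Γ} (h : ∀ k ∈ K₀, γ * k = k * γ) (γ' : Γ) :
    cc K₀ e (γ * γ') = cc K₀ e γ + cc K₀ e γ' := by
  rw [cc_mul, rho_of_comm K₀ e h]

theorem cc_inv_of_comm {γ : Γ} (h : ∀ k ∈ K₀, γ * k = k * γ) :
    cc K₀ e γ⁻¹ = - cc K₀ e γ := by
  rw [← cc_inv, rho_of_comm K₀ e h]

theorem cc_pow_of_comm {γ : Γ} (h : ∀ k ∈ K₀, γ * k = k * γ) (n : ℕ) :
    cc K₀ e (γ ^ n) = n • cc K₀ e γ := by
  induction n with
  | zero => rw [pow_zero, cc_one, zero_smul]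
  | succ n ih => rw [pow_succ', cc_mul_of_comm K₀ e h, ih, succ_nsmul, add_comm]

theorem cc_conj {k : Γ} (h : ∀ x ∈ K₀, k * x = x * k) (γ : Γ) :
    cc K₀ e (γ * k * γ⁻¹) = rho K₀ e γ (cc K₀ e k) := by
  rw [mul_assoc, cc_mul, cc_mul_of_comm K₀ e h, map_add, cc_inv]
  abel

/-- If `n < m` generators suffice then some element acts non-scalarly. -/
theorem exists_nonscalar {n : ℕ} (hnm : n < m) (gen : Fin n → Γ)
    (hgen : Subgroup.closure (Set.range gen) = ⊤) :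
    ∃ γ : Γ, ∃ v : Fin m → ℤ, rho K₀ e γ v ∉ AddSubgroup.zmultiples v := by
  by_contra hcon
  push Not at hcon
  -- the subgroup generated by the values on generators
  let H : AddSubgroup (Fin m → ℤ) := AddSubgroup.closure (Set.range (fun i => cc K₀ e (gen i)))
  have hrho : ∀ γ, ∀ v ∈ H, rho K₀ e γ v ∈ H := by
    intro γ v hv
    have h1 := hcon γ v
    exact (AddSubgroup.zmultiples_le_of_mem hv) h1
  have hall : ∀ γ, cc K₀ e γ ∈ H := by
    intro γ
    have hγ : γ ∈ Subgroup.closure (Set.range gen) := by rw [hgen]; trivial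
    induction hγ using Subgroup.closure_induction with
    | mem x hx =>
      obtain ⟨i, rfl⟩ := hx
      exact AddSubgroup.subset_closure ⟨i, rfl⟩
    | one => rw [cc_one]; exact H.zero_mem
    | mul x y _ _ hx hy =>
      rw [cc_mul]
      exact H.add_mem hx (hrho _ _ hy)
    | inv x _ hx =>
      have h1 : rho K₀ e x⁻¹ (rho K₀ e x (cc K₀ e x⁻¹)) = cc K₀ e x⁻¹ := by
        rw [← rho_mul, inv_mul_cancel, rho_one]
      rw [← h1, cc_inv]
      exact hrho _ _ (H.neg_mem hx)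
  have hD : ∀ v : Fin m → ℤ, K₀.index • v ∈ H := by
    intro v
    obtain ⟨k, rfl⟩ := ev_surj K₀ e v
    have := hall (k : Γ)
    rwa [cc_mem K₀ e k.2] at this
  -- pass to ℚ
  let φ : (Fin m → ℤ) →+ (Fin m → ℚ) := AddMonoidHom.compLeft (Int.castAddHom ℚ) (Fin m)
  have hφ : ∀ v i, φ v i = (v i : ℚ) := fun v i => rfl
  let T : Submodule ℚ (Fin m → ℚ) := Submodule.span ℚ (Set.range (fun i => φ (cc K₀ e (gen i))))
  have hHT : ∀ v ∈ H, φ v ∈ T := by
    intro v hv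
    induction hv using AddSubgroup.closure_induction with
    | mem x hx =>
      obtain ⟨i, rfl⟩ := hx
      exact Submodule.subset_span ⟨i, rfl⟩
    | zero => rw [map_zero]; exact T.zero_mem
    | add x y _ _ hx hy => rw [map_add]; exact T.add_mem hx hy
    | neg x _ hx => rw [map_neg]; exact T.neg_mem hx
  have hD0 : (K₀.index : ℚ) ≠ 0 := by
    exact_mod_cast hF.index_ne_zero
  have hT : T = ⊤ := by
    rw [eq_top_iff, ← (Pi.basisFun ℚ (Fin m)).span_eq, Submodule.span_le]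
    rintro _ ⟨i, rfl⟩
    have h1 := hHT _ (hD (Pi.single i 1))
    rw [map_nsmul] at h1
    have h2 : φ (Pi.single i 1) = Pi.basisFun ℚ (Fin m) i := by
      funext x
      rw [hφ]
      simp [Pi.basisFun_apply, Pi.single_apply]
    rw [h2, ← Nat.cast_smul_eq_nsmul ℚ] at h1
    have h3 := T.smul_mem ((K₀.index : ℚ)⁻¹) h1
    rwa [smul_smul, inv_mul_cancel₀ hD0, one_smul] at h3
  have h1 : finrank ℚ T ≤ n := by
    have := finrank_range_le_card (R := ℚ) (fun i => φ (cc K₀ e (gen i)))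
    rw [Fintype.card_fin] at this
    exact this
  rw [hT, finrank_top] at h1
  simp at h1
  omega

end Pool.Agent.H.MP_a7957c_al
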