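import Mathlib

/-! Number of solutions of `t * x ^ D = t` in `ZMod d` is `o(d)`. -/

set_option autoImplicit false

namespace Pool.Agent.H.MP_a7957c_al

open Finset Filter

/-- The set of `x : ZMod d` with `t * x ^ D = t`. -/
noncomputable def Lam (t D d : ℕ) [NeZero d] : Finset (ZMod d) := by
  classical
  exact Finset.univ.filter (fun x : ZMod d => (t : ZMod d) * x ^ D = t)

theorem mem_Lam {t D d : ℕ} [NeZero d] (x : ZMod d) :
    x ∈ Lam t D d ↔ (t : ZMod d) * x ^ D = t := by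
  simp [Lam]

/-- Number of solutions of `n • z = y` in `ZMod d` is at most `n`. -/
theorem card_nsmul_eq_le (d n : ℕ) [NeZero d] (hn : 0 < n) (y : ZMod d) :
    (Finset.univ.filter (fun z : ZMod d => (n : ZMod d) * z = y)).card ≤ n := by
  classical
  rcases (Finset.univ.filter (fun z : ZMod d => (n : ZMod d) * z = y)).eq_empty_or_nonempty with h | ⟨z0, hz0⟩
  · rw [h]; simp
  · have h1 : (Finset.univ.filter (fun z : ZMod d => n • z = 0)).card ≤ n :=
      IsAddCyclic.card_nsmul_eq_zero_le hn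
    refine le_trans (Finset.card_le_card_of_injOn (fun z => z - z0) ?_ ?_) h1
    · intro z hz
      simp only [Finset.coe_filter, Finset.mem_univ, true_and, Set.mem_ofPred_eq,
        Finset.mem_filter] at hz hz0 ⊢
      rw [nsmul_eq_mul, mul_sub, hz, hz0, sub_self]
    · intro a _ b _ hab
      simpa using hab

theorem Lam_card_mul_harmonic_le (t D d X : ℕ) [NeZero d] (ht : 0 < t) (hD : 0 < D)
    (hX : t * X ^ D < d) :
    ((Lam t D d).card : ℝ) * ∑ x ∈ Finset.Icc 1 X, (1 / (x : ℝ)) ≤ d := by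
  classical
  set Λ := Lam t D d with hΛ
  -- images
  let im : ℕ → Finset (ZMod d) := fun x => Λ.image (fun l => (x : ZMod d) * l)
  have hdisj : ∀ x ∈ Finset.Icc 1 X, ∀ y ∈ Finset.Icc 1 X, x ≠ y → Disjoint (im x) (im y) := by
    intro x hx y hy hxy
    rw [Finset.disjoint_left]
    intro z hz1 hz2
    simp only [im, Finset.mem_image] at hz1 hz2
    obtain ⟨l, hl, rfl⟩ := hz1
    obtain ⟨l', hl', h⟩ := hz2
    rw [hΛ, mem_Lam] at hl hl'
    have h1 : ((t * x ^ D : ℕ) : ZMod d) = ((t * y ^ D : ℕ) : ZMod d) := by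
      have h2 : (t : ZMod d) * ((y : ZMod d) * l') ^ D = (t : ZMod d) * ((x : ZMod d) * l) ^ D := by
        rw [h]
      rw [mul_pow, mul_pow] at h2
      have h3 : (t : ZMod d) * ((y : ZMod d) ^ D * l' ^ D) = (y : ZMod d) ^ D * t := by
        rw [← mul_assoc, mul_comm (t : ZMod d), mul_assoc, hl']
      have h4 : (t : ZMod d) * ((x : ZMod d) ^ D * l ^ D) = (x : ZMod d) ^ D * t := by
        rw [← mul_assoc, mul_comm (t : ZMod d), mul_assoc, hl]
      rw [h3, h4] at h2
      push_cast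
      rw [mul_comm, ← h2, mul_comm]
    rw [ZMod.natCast_eq_natCast_iff] at h1
    rw [Finset.mem_Icc] at hx hy
    have hx2 : t * x ^ D < d := lt_of_le_of_lt (Nat.mul_le_mul_left _ (Nat.pow_le_pow_left hx.2 _)) hX
    have hy2 : t * y ^ D < d := lt_of_le_of_lt (Nat.mul_le_mul_left _ (Nat.pow_le_pow_left hy.2 _)) hX
    have h5 := Nat.ModEq.eq_of_lt_of_lt h1 hx2 hy2
    have h6 := Nat.eq_of_mul_eq_mul_left ht h5
    exact hxy (Nat.pow_left_injective (by omega : D ≠ 0) h6)
  have hcard : ∀ x ∈ Finset.Icc 1 X, Λ.card ≤ x * (im x).card := by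
    intro x hx
    rw [Finset.mem_Icc] at hx
    refine Finset.card_le_mul_card_image (s := Λ) (f := fun l => (x : ZMod d) * l) x ?_
    intro b _
    refine le_trans (Finset.card_le_card ?_) (card_nsmul_eq_le d x (by omega) b)
    intro a ha
    simp only [Finset.mem_filter, Finset.mem_univ, true_and] at ha ⊢
    exact ha.2
  have hsum : ∑ x ∈ Finset.Icc 1 X, (im x).card ≤ d := by
    rw [← Finset.card_biUnion hdisj]
    calc _ ≤ (Finset.univ : Finset (ZMod d)).card := Finset.card_le_card (Finset.subset_univ _)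
      _ = d := by rw [Finset.card_univ, ZMod.card]
  calc ((Lam t D d).card : ℝ) * ∑ x ∈ Finset.Icc 1 X, (1 / (x : ℝ))
      = ∑ x ∈ Finset.Icc 1 X, (Λ.card : ℝ) * (1 / (x : ℝ)) := by rw [Finset.mul_sum]
    _ ≤ ∑ x ∈ Finset.Icc 1 X, ((im x).card : ℝ) := by
        apply Finset.sum_le_sum
        intro x hx
        have h := hcard x hx
        rw [Finset.mem_Icc] at hx
        have hx0 : (0 : ℝ) < x := by exact_mod_cast (by omega : 0 < x)
        rw [mul_one_div, div_le_iff₀ hx0]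
        calc (Λ.card : ℝ) ≤ ((x * (im x).card : ℕ) : ℝ) := by exact_mod_cast h
          _ = ((im x).card : ℝ) * x := by push_cast; ring
    _ ≤ d := by exact_mod_cast hsum

/-- `#Lam / d → 0`. -/
theorem Lam_ratio_small (t D : ℕ) (ht : 0 < t) (hD : 0 < D) (ε : ℝ) (hε : 0 < ε) :
    ∃ d0 : ℕ, ∀ d : ℕ, d0 ≤ d → ∀ [NeZero d], ((Lam t D d).card : ℝ) ≤ ε * d := by
  have hlog : Tendsto (fun n : ℕ => Real.log ((n : ℝ) + 1)) atTop atTop :=
    Real.tendsto_log_atTop.comp (tendsto_atTop_add_const_right _ _ tendsto_natCast_atTop_atTop)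
  obtain ⟨X, hX⟩ := (hlog.eventually_ge_atTop (1 / ε)).exists
  refine ⟨t * X ^ D + 1, fun d hd _ => ?_⟩
  have h1 := Lam_card_mul_harmonic_le t D d X ht hD (by omega)
  have h2 : Real.log ((X : ℝ) + 1) ≤ ∑ x ∈ Finset.Icc 1 X, (1 / (x : ℝ)) := by
    have := log_add_one_le_harmonic X
    rw [harmonic_eq_sum_Icc] at this
    push_cast at this
    simpa [one_div] using this
  have h3 : 1 / ε ≤ ∑ x ∈ Finset.Icc 1 X, (1 / (x : ℝ)) := le_trans hX h2
  have h4 : ((Lam t D d).card : ℝ) * (1 / ε) ≤ d :=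
    le_trans (mul_le_mul_of_nonneg_left h3 (Nat.cast_nonneg _)) h1
  rw [mul_one_div, div_le_iff₀ hε] at h4
  linarith [h4, mul_comm (d : ℝ) ε]

end Pool.Agent.H.MP_a7957c_al
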