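import Mathlib
import Pool.Agent.H.MP_a7957c_al.Lambda

/-! Finite index subgroups of `ℤ × W` as graphs of homomorphisms `L̄ → ZMod d`. -/

set_option autoImplicit false

namespace Pool.Agent.H.MP_a7957c_al

open Finset Filter Module

variable {W : Type} [AddCommGroup W]

/-- Subgroups of `ℤ × W` with given image in `W` and given intersection with `ℤ`. -/
def Fib (Lb : AddSubgroup W) (d : ℕ) : Set (AddSubgroup (ℤ × W)) :=
  {L | L.map (AddMonoidHom.snd ℤ W) = Lb ∧
    L.comap (AddMonoidHom.inl ℤ W) = AddSubgroup.zmultiples (d : ℤ)}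

theorem Fib_exists_fst {Lb : AddSubgroup W} {d : ℕ} {L : AddSubgroup (ℤ × W)} (h : L ∈ Fib Lb d)
    (w : Lb) : ∃ x : ℤ, (x, (w : W)) ∈ L := by
  obtain ⟨w, hw0⟩ := w
  have hw : w ∈ L.map (AddMonoidHom.snd ℤ W) := by rw [h.1]; exact hw0
  obtain ⟨⟨x, w'⟩, h1, h2⟩ := hw
  have h3 : w' = w := h2
  subst h3
  exact ⟨x, h1⟩

theorem Fib_zero_mem {Lb : AddSubgroup W} {d : ℕ} {L : AddSubgroup (ℤ × W)} (h : L ∈ Fib Lb d)
    (x : ℤ) : (x, (0 : W)) ∈ L ↔ (x : ZMod d) = 0 := by
  have h1 : (x, (0 : W)) ∈ L ↔ x ∈ L.comap (AddMonoidHom.inl ℤ W) := by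
    simp [AddSubgroup.mem_comap]
  rw [h1, h.2, Int.mem_zmultiples_iff, ZMod.intCast_zmod_eq_zero_iff_dvd]

theorem Fib_fst_unique {Lb : AddSubgroup W} {d : ℕ} {L : AddSubgroup (ℤ × W)} (h : L ∈ Fib Lb d)
    {x y : ℤ} {w : W} (hx : (x, w) ∈ L) (hy : (y, w) ∈ L) : (x : ZMod d) = (y : ZMod d) := by
  have h1 : (x - y, (0 : W)) ∈ L := by
    have := L.sub_mem hx hy
    simpa using this
  rw [Fib_zero_mem h] at h1
  push_cast at h1
  exact sub_eq_zero.mp h1

/-- The homomorphism whose graph is `L`. -/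
noncomputable def psi {Lb : AddSubgroup W} {d : ℕ} {L : AddSubgroup (ℤ × W)} (h : L ∈ Fib Lb d) :
    Lb →+ ZMod d :=
  AddMonoidHom.mk' (fun w => ((Classical.choose (Fib_exists_fst h w) : ℤ) : ZMod d)) (by
    intro a b
    have ha := Classical.choose_spec (Fib_exists_fst h a)
    have hb := Classical.choose_spec (Fib_exists_fst h b)
    have hab := Classical.choose_spec (Fib_exists_fst h (a + b))
    have h1 : (Classical.choose (Fib_exists_fst h a) + Classical.choose (Fib_exists_fst h b),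
        ((a + b : Lb) : W)) ∈ L := by
      have := L.add_mem ha hb
      simpa using this
    have h2 := Fib_fst_unique h hab h1
    push_cast at h2
    exact h2)

theorem psi_spec {Lb : AddSubgroup W} {d : ℕ} {L : AddSubgroup (ℤ × W)} (h : L ∈ Fib Lb d)
    (w : Lb) (x : ℤ) : (x, (w : W)) ∈ L ↔ (x : ZMod d) = psi h w := by
  have hw := Classical.choose_spec (Fib_exists_fst h w)
  have hpsi : psi h w = ((Classical.choose (Fib_exists_fst h w) : ℤ) : ZMod d) := rfl
  constructor
  · intro hx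
    rw [hpsi]
    exact Fib_fst_unique h hx hw
  · intro hx
    rw [hpsi] at hx
    have h1 : (x - Classical.choose (Fib_exists_fst h w), (0 : W)) ∈ L := by
      rw [Fib_zero_mem h]
      push_cast
      rw [hx, sub_self]
    have := L.add_mem h1 hw
    simpa using this

theorem Fib_snd_mem {Lb : AddSubgroup W} {d : ℕ} {L : AddSubgroup (ℤ × W)} (h : L ∈ Fib Lb d)
    {x : ℤ} {w : W} (hx : (x, w) ∈ L) : w ∈ Lb := by
  rw [← h.1]
  exact ⟨(x, w), hx, rfl⟩

theorem Fib_ext {Lb : AddSubgroup W} {d : ℕ} {L L' : AddSubgroup (ℤ × W)} (h : L ∈ Fib Lb d)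
    (h' : L' ∈ Fib Lb d) (hpsi : psi h = psi h') : L = L' := by
  ext ⟨x, w⟩
  constructor
  · intro hx
    have hw := Fib_snd_mem h hx
    have h1 := (psi_spec h ⟨w, hw⟩ x).mp hx
    exact (psi_spec h' ⟨w, hw⟩ x).mpr (by rw [← hpsi]; exact h1)
  · intro hx
    have hw := Fib_snd_mem h' hx
    have h1 := (psi_spec h' ⟨w, hw⟩ x).mp hx
    exact (psi_spec h ⟨w, hw⟩ x).mpr (by rw [hpsi]; exact h1)

section basis

variable {Lb : AddSubgroup W} {ι : Type} [Fintype ι] (b : Basis ι ℤ Lb)

/-- coordinates of `L ∈ Fib Lb d`. -/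
noncomputable def crd (d : ℕ) (L : Fib Lb d) : ι → ZMod d := fun i => psi L.2 (b i)

omit [Fintype ι] in
theorem crd_injective (d : ℕ) : Function.Injective (crd b d) := by
  rintro ⟨L, hL⟩ ⟨L', hL'⟩ h
  have h1 : psi hL = psi hL' := by
    have h2 : (psi hL).toIntLinearMap = (psi hL').toIntLinearMap := by
      apply b.ext
      intro i
      exact congrFun h i
    have h3 : ∀ w, psi hL w = psi hL' w := fun w => LinearMap.congr_fun h2 w
    exact AddMonoidHom.ext h3
  exact Subtype.ext (Fib_ext hL hL' h1)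

theorem psi_eq_sum (d : ℕ) (L : Fib Lb d) (u : Lb) :
    psi L.2 u = ∑ i, ((b.repr u i : ℤ) : ZMod d) * crd b d L i := by
  conv_lhs => rw [← b.sum_repr u]
  rw [map_sum]
  refine Finset.sum_congr rfl fun i _ => ?_
  rw [map_zsmul, zsmul_eq_mul]
  rfl

include b in
theorem Fib_finite (d : ℕ) [NeZero d] : Finite (Fib Lb d) :=
  Finite.of_injective _ (crd_injective b d)

include b in
theorem Fib_card_le (d : ℕ) [NeZero d] : (Fib Lb d).ncard ≤ d ^ Fintype.card ι := by
  classical
  have h := Nat.card_le_card_of_injective _ (crd_injective b d)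
  have h2 : Nat.card (ι → ZMod d) = d ^ Fintype.card ι := by
    rw [Nat.card_eq_fintype_card, Fintype.card_fun, ZMod.card]
  rw [← h2]
  exact h

end basis

/-- Number of solutions of a linear equation. -/
theorem card_linear_eq_le {ι : Type} [Fintype ι] [DecidableEq ι] (d : ℕ) [NeZero d] (c : ι → ℤ)
    (i0 : ι) (hc : c i0 ≠ 0) (y : ZMod d) :
    (Finset.univ.filter (fun z : ι → ZMod d => ∑ i, (c i : ZMod d) * z i = y)).card ≤
      (c i0).natAbs * d ^ (Fintype.card ι - 1) := by
  classical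
  let S := Finset.univ.filter (fun z : ι → ZMod d => ∑ i, (c i : ZMod d) * z i = y)
  let r : (ι → ZMod d) → ({i // i ≠ i0} → ZMod d) := fun z i => z i.1
  have h1 : S.card ≤ (c i0).natAbs * (S.image r).card := by
    refine Finset.card_le_mul_card_image (s := S) (f := r) _ ?_
    intro b hb
    rw [Finset.mem_image] at hb
    obtain ⟨z0, hz0, rfl⟩ := hb
    have hn : 0 < (c i0).natAbs := Int.natAbs_pos.mpr hc
    refine le_trans ?_ (card_nsmul_eq_le d (c i0).natAbs hn 0)
    refine Finset.card_le_card_of_injOn (fun z => z i0 - z0 i0) ?_ ?_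
    · intro z hz
      simp only [Finset.coe_filter, Finset.mem_univ, true_and, Set.mem_ofPred_eq,
        Finset.mem_filter, S] at hz hz0 ⊢
      obtain ⟨hz1, hz2⟩ := hz
      have h2 : ∑ i, (c i : ZMod d) * (z i - z0 i) = 0 := by
        simp only [mul_sub, Finset.sum_sub_distrib]
        rw [hz1, hz0, sub_self]
      rw [Finset.sum_eq_single i0] at h2
      · rcases Int.natAbs_eq (c i0) with h3 | h3
        · rw [h3] at h2; push_cast at h2
          simpa using h2
        · rw [h3] at h2; push_cast at h2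
          simpa using h2
      · intro i _ hi
        have : z i = z0 i := congrFun hz2 ⟨i, hi⟩
        rw [this, sub_self, mul_zero]
      · intro h; exact absurd (Finset.mem_univ _) h
    · intro z hz z' hz' h
      simp only [Finset.coe_filter, Set.mem_ofPred_eq] at hz hz'
      funext i
      by_cases hi : i = i0
      · subst hi
        simpa using h
      · have h3 := congrFun (hz.2.trans hz'.2.symm) ⟨i, hi⟩
        exact h3
  refine le_trans h1 (Nat.mul_le_mul_left _ ?_)
  calc (S.image r).card ≤ Fintype.card ({i // i ≠ i0} → ZMod d) := Finset.card_le_univ _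
    _ = d ^ (Fintype.card ι - 1) := by
      rw [Fintype.card_fun, ZMod.card]
      congr 1
      rw [Fintype.card_subtype_compl, Fintype.card_subtype_eq]

end Pool.Agent.H.MP_a7957c_al
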