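import Mathlib
import Pool.Agent.H.MP_a7957c_al.Fiber

/-! Index of subgroups of `ℤ × W`. -/

set_option autoImplicit false

namespace Pool.Agent.H.MP_a7957c_al

open Finset Filter Module

variable {W : Type} [AddCommGroup W]

theorem index_eq_mul (L : AddSubgroup (ℤ × W)) :
    L.index = (L.comap (AddMonoidHom.inl ℤ W)).index * (L.map (AddMonoidHom.snd ℤ W)).index := by
  have h1 : (L.map (AddMonoidHom.snd ℤ W)).index = (L ⊔ (AddMonoidHom.snd ℤ W).ker).index := by
    rw [AddSubgroup.index_map]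
    have : (AddMonoidHom.snd ℤ W).range = ⊤ := by
      rw [AddMonoidHom.range_eq_top]
      exact fun w => ⟨(0, w), rfl⟩
    rw [this, AddSubgroup.index_top, mul_one]
  have h2 : (L.comap (AddMonoidHom.inl ℤ W)).index = L.relIndex (AddMonoidHom.snd ℤ W).ker := by
    rw [AddSubgroup.index_comap]
    congr 1
    ext ⟨x, w⟩
    constructor
    · rintro ⟨y, hy⟩
      rw [AddMonoidHom.mem_ker]
      have := congrArg Prod.snd hy
      exact this.symm
    · intro h
      rw [AddMonoidHom.mem_ker] at h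
      have h' : w = 0 := h
      subst h'
      exact ⟨x, rfl⟩
  rw [h1, h2, ← AddSubgroup.relIndex_mul_index (H := L) (K := L ⊔ (AddMonoidHom.snd ℤ W).ker) le_sup_left,
    sup_comm, AddSubgroup.relIndex_sup_right]

theorem subgroup_int_eq (H : AddSubgroup ℤ) : H = AddSubgroup.zmultiples (H.index : ℤ) := by
  obtain ⟨a, ha⟩ := Int.subgroup_cyclic H
  rw [← AddSubgroup.zmultiples_eq_closure] at ha
  have h1 : H.index = a.natAbs := by rw [ha, Int.index_zmultiples]
  rw [h1, ha]
  exact (Int.zmultiples_natAbs a).symm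

theorem mem_Fib_self (L : AddSubgroup (ℤ × W)) :
    L ∈ Fib (L.map (AddMonoidHom.snd ℤ W)) (L.comap (AddMonoidHom.inl ℤ W)).index :=
  ⟨rfl, subgroup_int_eq _⟩

theorem index_of_mem_Fib {Lb : AddSubgroup W} {d : ℕ} {L : AddSubgroup (ℤ × W)}
    (h : L ∈ Fib Lb d) : L.index = d * Lb.index := by
  rw [index_eq_mul, h.1, h.2, Int.index_zmultiples, Int.natAbs_natCast]

end Pool.Agent.H.MP_a7957c_al
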