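import Mathlib
import Pool.Agent.H.MP_a7957c_al.FiberIndex

/-! Invariant subgroups in a fibre. -/

set_option autoImplicit false

namespace Pool.Agent.H.MP_a7957c_al

open Finset Filter Module

variable {W : Type} [AddCommGroup W]

theorem inv_key (g : (ℤ × W) →+ (ℤ × W)) (D : ℕ) (hgD : ∀ x, g^[D] x = x)
    (Lb : AddSubgroup W) (d : ℕ) [NeZero d] (L : AddSubgroup (ℤ × W))
    (h : L ∈ Fib Lb d) (hinv : ∀ x ∈ L, g x ∈ L) :
    ∃ l : ZMod d, l ∈ Lam Lb.index D d ∧
      psi h ⟨Lb.index • (g (1, 0)).2, Lb.nsmul_index_mem _⟩ =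
        (Lb.index : ZMod d) * ((g (1, 0)).1 - l) := by
  set t := Lb.index with ht
  let a : (ℤ × W) →+ ZMod d := AddMonoidHom.mk'
    (fun z => (t : ZMod d) * (z.1 : ZMod d) - psi h ⟨t • z.2, Lb.nsmul_index_mem _⟩) (by
      intro z z'
      have h1 : (⟨t • (z + z').2, Lb.nsmul_index_mem _⟩ : Lb) =
          ⟨t • z.2, Lb.nsmul_index_mem _⟩ + ⟨t • z'.2, Lb.nsmul_index_mem _⟩ := by
        apply Subtype.ext
        simp [smul_add]
      simp only [h1, map_add, Prod.fst_add, Int.cast_add]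
      ring)
  have ha : ∀ z, a z = (t : ZMod d) * (z.1 : ZMod d) - psi h ⟨t • z.2, Lb.nsmul_index_mem _⟩ :=
    fun z => rfl
  have hker : ∀ z, a z = 0 ↔ t • z ∈ L := by
    intro z
    have h1 := psi_spec h ⟨t • z.2, Lb.nsmul_index_mem _⟩ ((t : ℤ) * z.1)
    have h2 : t • z = ((t : ℤ) * z.1, t • z.2) := by
      apply Prod.ext
      · simp
      · simp
    rw [h2, ha, sub_eq_zero]
    rw [show (((t : ℤ) * z.1 : ℤ), t • z.2) ∈ L ↔ _ from h1]
    push_cast
    rfl
  obtain ⟨⟨u, z0, hz0⟩, hu⟩ := (inferInstance : IsAddCyclic a.range).exists_generator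
  have hgen : ∀ z, ∃ k : ℤ, a z = k • u := by
    intro z
    have := hu ⟨a z, z, rfl⟩
    rw [AddSubgroup.mem_zmultiples_iff] at this
    obtain ⟨k, hk⟩ := this
    exact ⟨k, (congrArg Subtype.val hk).symm⟩
  obtain ⟨l, hl⟩ := hgen (g z0)
  have hag : ∀ z, a (g z) = l • a z := by
    intro z
    obtain ⟨k, hk⟩ := hgen z
    have h1 : a (z - k • z0) = 0 := by
      rw [map_sub, map_zsmul, hz0, hk, sub_self]
    rw [hker] at h1
    have h2 := hinv _ h1
    rw [map_nsmul, ← hker, map_sub, map_zsmul, map_sub, map_zsmul, hl, sub_eq_zero] at h2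
    rw [h2, hk, smul_comm]
  have hiter : ∀ n : ℕ, ∀ z, a (g^[n] z) = ((l : ZMod d) ^ n) * a z := by
    intro n
    induction n with
    | zero => intro z; simp
    | succ n ih =>
      intro z
      rw [Function.iterate_succ_apply', hag, ih, pow_succ, zsmul_eq_mul]
      ring
  have ha1 : a (1, 0) = t := by
    have h0 : (⟨t • (0 : W), Lb.nsmul_index_mem _⟩ : Lb) = 0 := by
      apply Subtype.ext; simp
    have h1 : a (1, 0) = (t : ZMod d) * ((1 : ℤ) : ZMod d) -
      psi h ⟨t • (0 : W), Lb.nsmul_index_mem _⟩ := rfl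
    rw [h1, h0, map_zero]
    simp
  refine ⟨(l : ZMod d), ?_, ?_⟩
  · rw [mem_Lam]
    have := hiter D (1, 0)
    rw [hgD, ha1] at this
    rw [mul_comm]
    exact this.symm
  · have := hag (1, 0)
    rw [ha1, ha, zsmul_eq_mul, sub_eq_iff_eq_add] at this
    rw [mul_sub, this]
    ring

theorem Fib_inv_card [Module.Free ℤ W] [Module.Finite ℤ W]
    (g : (ℤ × W) →+ (ℤ × W)) (D : ℕ) (hgD : ∀ x, g^[D] x = x)
    (hne : (g (1, 0)).2 ≠ 0) (Lb : AddSubgroup W) [Lb.FiniteIndex] :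
    ∃ C : ℕ, ∀ d : ℕ, ∀ [NeZero d], {L | L ∈ Fib Lb d ∧ ∀ x ∈ L, g x ∈ L}.ncard ≤
      C * (Lam Lb.index D d).card * d ^ (finrank ℤ W - 1) := by
  classical
  have : Module.Free ℤ Lb := inferInstanceAs (Module.Free ℤ Lb.toIntSubmodule)
  have : Module.Finite ℤ Lb := inferInstanceAs (Module.Finite ℤ Lb.toIntSubmodule)
  let b := Module.finBasis ℤ Lb
  have hrank : finrank ℤ Lb = finrank ℤ W := AddSubgroup.finrank_eq_of_finiteIndex Lb
  set t := Lb.index with ht
  have ht0 : t ≠ 0 := AddSubgroup.FiniteIndex.index_ne_zero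
  let u0 : Lb := ⟨t • (g (1, 0)).2, Lb.nsmul_index_mem _⟩
  have hu0 : u0 ≠ 0 := by
    intro h
    have h1 : t • (g (1, 0)).2 = 0 := congrArg Subtype.val h
    rw [← natCast_zsmul, smul_eq_zero] at h1
    rcases h1 with h1 | h1
    · exact ht0 (by exact_mod_cast h1)
    · exact hne h1
  obtain ⟨i0, hi0⟩ : ∃ i, b.repr u0 i ≠ 0 := by
    by_contra hcon
    push Not at hcon
    apply hu0
    have : b.repr u0 = 0 := by
      ext i
      simp [hcon i]
    simpa using this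
  refine ⟨(b.repr u0 i0).natAbs, fun d _ => ?_⟩
  let Z : ZMod d → Finset (Fin (finrank ℤ Lb) → ZMod d) := fun l =>
    Finset.univ.filter (fun z => ∑ i, ((b.repr u0 i : ℤ) : ZMod d) * z i =
      (t : ZMod d) * ((g (1, 0)).1 - l))
  let U := (Lam t D d).biUnion Z
  have hUcard : U.card ≤ (Lam t D d).card * ((b.repr u0 i0).natAbs * d ^ (finrank ℤ W - 1)) := by
    refine Finset.card_biUnion_le_card_mul _ _ _ fun l _ => ?_
    have := card_linear_eq_le d (fun i => b.repr u0 i) i0 hi0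
      ((t : ZMod d) * ((g (1, 0)).1 - l))
    rw [Fintype.card_fin] at this
    rw [← hrank]
    exact this
  have hmaps : ∀ L ∈ {L | L ∈ Fib Lb d ∧ ∀ x ∈ L, g x ∈ L},
      (if hL : L ∈ Fib Lb d then crd b d ⟨L, hL⟩ else 0) ∈ (U : Set (Fin (finrank ℤ Lb) → ZMod d)) := by
    rintro L ⟨hL, hinv⟩
    rw [dif_pos hL]
    obtain ⟨l, hl, hl2⟩ := inv_key g D hgD Lb d L hL hinv
    simp only [U, Finset.coe_biUnion, Set.mem_iUnion]
    refine ⟨l, hl, ?_⟩
    simp only [Z, Finset.coe_filter, Finset.mem_univ, true_and, Set.mem_ofPred_eq]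
    rw [← psi_eq_sum b d ⟨L, hL⟩ u0]
    exact hl2
  have hinj : Set.InjOn (fun L => (if hL : L ∈ Fib Lb d then crd b d ⟨L, hL⟩ else 0))
      {L | L ∈ Fib Lb d ∧ ∀ x ∈ L, g x ∈ L} := by
    intro L hL L' hL' h
    simp only [dif_pos hL.1, dif_pos hL'.1] at h
    have := crd_injective b d h
    exact congrArg Subtype.val this
  have hcard := Set.ncard_le_ncard_of_injOn _ hmaps hinj (Finset.finite_toSet U)
  rw [Set.ncard_coe_finset] at hcard
  calc _ ≤ U.card := hcard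
    _ ≤ (Lam t D d).card * ((b.repr u0 i0).natAbs * d ^ (finrank ℤ W - 1)) := hUcard
    _ = _ := by ring

theorem Fib_finite_card [Module.Free ℤ W] [Module.Finite ℤ W] (Lb : AddSubgroup W)
    [Lb.FiniteIndex] (d : ℕ) [NeZero d] :
    (Fib Lb d).Finite ∧ (Fib Lb d).ncard ≤ d ^ finrank ℤ W := by
  have : Module.Free ℤ Lb := inferInstanceAs (Module.Free ℤ Lb.toIntSubmodule)
  have : Module.Finite ℤ Lb := inferInstanceAs (Module.Finite ℤ Lb.toIntSubmodule)
  let b := Module.finBasis ℤ Lb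
  have hrank : finrank ℤ Lb = finrank ℤ W := AddSubgroup.finrank_eq_of_finiteIndex Lb
  refine ⟨Fib_finite b d, ?_⟩
  have := Fib_card_le b d
  rwa [Fintype.card_fin, hrank] at this

end Pool.Agent.H.MP_a7957c_al
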