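import Mathlib
import Pool.Agent.H.MP_a7957c_al.FiberInv

/-! Convergence of the subgroup zeta function of `ℤ ^ j` at `s ≥ j + 1`. -/

set_option autoImplicit false

namespace Pool.Agent.H.MP_a7957c_al

open Finset Filter Module

theorem summable_of_fibers {X Y : Type} (π : X → Y) (N : Y → ℕ) (g : Y → ℝ) (hg : ∀ y, 0 ≤ g y)
    (hfin : ∀ y, (π ⁻¹' {y}).Finite) (hcard : ∀ y, (π ⁻¹' {y}).ncard ≤ N y)
    (hsum : Summable fun y => (N y : ℝ) * g y) : Summable (fun x => g (π x)) := by
  classical
  refine summable_of_sum_le (c := ∑' y, (N y : ℝ) * g y) (fun x => hg _) fun u => ?_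
  rw [Finset.sum_comp g π]
  calc ∑ b ∈ Finset.image π u, (Finset.filter (fun a => π a = b) u).card • g b
      ≤ ∑ b ∈ Finset.image π u, (N b : ℝ) * g b := by
        apply Finset.sum_le_sum
        intro b _
        rw [nsmul_eq_mul]
        apply mul_le_mul_of_nonneg_right _ (hg b)
        have h1 : (Finset.filter (fun a => π a = b) u).card ≤ (π ⁻¹' {b}).ncard := by
          rw [← Set.ncard_coe_finset]
          apply Set.ncard_le_ncard _ (hfin b)
          intro a ha
          simp only [Finset.coe_filter, Set.mem_ofPred_eq] at ha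
          exact ha.2
        exact_mod_cast le_trans h1 (hcard b)
    _ ≤ ∑' y, (N y : ℝ) * g y :=
        hsum.sum_le_tsum _ (fun y _ => mul_nonneg (Nat.cast_nonneg _) (hg y))

/-- Convergence of the zeta function of the group `W` at `s`. -/
def ZS (W : Type) [AddCommGroup W] (s : ℕ) : Prop :=
  Summable (fun L : {L : AddSubgroup W // L.FiniteIndex} => ((L.1.index : ℝ) ^ s)⁻¹)

theorem ZS_congr {W W' : Type} [AddCommGroup W] [AddCommGroup W'] (e : W ≃+ W') (s : ℕ)
    (h : ZS W s) : ZS W' s := by
  unfold ZS at *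
  let f : {L : AddSubgroup W' // L.FiniteIndex} → {L : AddSubgroup W // L.FiniteIndex} :=
    fun L => ⟨L.1.map e.symm.toAddMonoidHom, by
      have h1 : (L.1.map (e.symm : W' →+ W)).index = L.1.index := AddSubgroup.index_map_equiv _ _
      exact ⟨by rw [show e.symm.toAddMonoidHom = (e.symm : W' →+ W) from rfl, h1]; exact L.2.1⟩⟩
  have hf : Function.Injective f := by
    intro L L' hLL
    have h1 := congrArg Subtype.val hLL
    exact Subtype.ext (AddSubgroup.map_injective e.symm.injective h1)
  have h2 := h.comp_injective hf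
  refine h2.congr fun L => ?_
  have h1 : (L.1.map (e.symm : W' →+ W)).index = L.1.index := AddSubgroup.index_map_equiv _ _
  simp only [Function.comp, f]
  rw [show e.symm.toAddMonoidHom = (e.symm : W' →+ W) from rfl, h1]

theorem ZS_step {W : Type} [AddCommGroup W] [Module.Free ℤ W] [Module.Finite ℤ W] (s : ℕ)
    (hs : finrank ℤ W + 2 ≤ s) (h : ZS W s) : ZS (ℤ × W) s := by
  classical
  have hidx : ∀ L : AddSubgroup (ℤ × W), L.FiniteIndex →
      (L.comap (AddMonoidHom.inl ℤ W)).index ≠ 0 ∧ (L.map (AddMonoidHom.snd ℤ W)).index ≠ 0 := by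
    intro L hL
    have h1 := hL.1
    rw [index_eq_mul] at h1
    exact ⟨left_ne_zero_of_mul h1, right_ne_zero_of_mul h1⟩
  let π : {L : AddSubgroup (ℤ × W) // L.FiniteIndex} → {L : AddSubgroup W // L.FiniteIndex} × ℕ :=
    fun L => (⟨L.1.map (AddMonoidHom.snd ℤ W), ⟨(hidx L.1 L.2).2⟩⟩,
      (L.1.comap (AddMonoidHom.inl ℤ W)).index)
  let N : {L : AddSubgroup W // L.FiniteIndex} × ℕ → ℕ := fun y =>
    if y.2 = 0 then 0 else y.2 ^ finrank ℤ W
  let g : {L : AddSubgroup W // L.FiniteIndex} × ℕ → ℝ := fun y =>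
    ((y.1.1.index : ℝ) ^ s)⁻¹ * (((y.2 : ℝ) ^ s)⁻¹)
  have hπ : ∀ L, (L : AddSubgroup (ℤ × W)) ∈ Fib (π L).1.1 (π L).2 := fun L => mem_Fib_self L.1
  have hpos : ∀ L, (π L).2 ≠ 0 := fun L => (hidx L.1 L.2).1
  have key := summable_of_fibers π N g (fun y => by positivity) ?_ ?_ ?_
  · unfold ZS
    refine key.congr fun L => ?_
    rw [index_of_mem_Fib (hπ L)]
    simp only [g]
    push_cast
    rw [mul_pow, mul_inv, mul_comm]
  · rintro ⟨Lb, d⟩
    by_cases hd : d = 0
    · have : π ⁻¹' {(Lb, d)} = ∅ := by
        ext L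
        simp only [Set.mem_preimage, Set.mem_singleton_iff, Set.mem_empty_iff_false, iff_false]
        intro hL
        exact hpos L (by rw [hL]; exact hd)
      rw [this]; exact Set.finite_empty
    · have : NeZero d := ⟨hd⟩
      have := Lb.2
      refine Set.Finite.of_finite_image (f := Subtype.val) ?_ (Set.injOn_of_injective Subtype.val_injective)
      refine (Fib_finite_card Lb.1 d).1.subset ?_
      rintro _ ⟨L, hL, rfl⟩
      simp only [Set.mem_preimage, Set.mem_singleton_iff] at hL
      have := hπ L
      rw [hL] at this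
      exact this
  · rintro ⟨Lb, d⟩
    by_cases hd : d = 0
    · have : π ⁻¹' {(Lb, d)} = ∅ := by
        ext L
        simp only [Set.mem_preimage, Set.mem_singleton_iff, Set.mem_empty_iff_false, iff_false]
        intro hL
        exact hpos L (by rw [hL]; exact hd)
      rw [this]; simp
    · have : NeZero d := ⟨hd⟩
      have := Lb.2
      simp only [N, if_neg hd]
      refine le_trans ?_ (Fib_finite_card Lb.1 d).2
      refine Set.ncard_le_ncard_of_injOn Subtype.val ?_ (Set.injOn_of_injective Subtype.val_injective)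
        (Fib_finite_card Lb.1 d).1
      intro L hL
      simp only [Set.mem_preimage, Set.mem_singleton_iff] at hL
      have := hπ L
      rw [hL] at this
      exact this
  · have h2 : Summable (fun d : ℕ => ((if d = 0 then 0 else d ^ finrank ℤ W : ℕ) : ℝ) * (((d : ℝ) ^ s)⁻¹)) := by
      refine Summable.of_nonneg_of_le (fun d => by positivity) (fun d => ?_)
        (Real.summable_nat_pow_inv.mpr (by norm_num : 1 < 2))
      by_cases hd : d = 0
      · subst hd; simp
      · rw [if_neg hd]
        have hd0 : (0 : ℝ) < d := by exact_mod_cast Nat.pos_of_ne_zero hd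
        have hd1 : (1 : ℝ) ≤ d := by exact_mod_cast Nat.one_le_iff_ne_zero.mpr hd
        rw [← div_eq_mul_inv, div_le_iff₀ (by positivity)]
        have : ((d : ℝ) ^ 2)⁻¹ * (d : ℝ) ^ s = (d : ℝ) ^ (s - 2) := by
          rw [inv_mul_eq_div, div_eq_iff (by positivity), ← pow_add]
          congr 1; omega
        rw [this]
        push_cast
        exact pow_le_pow_right₀ hd1 (by omega)
    have h3 := Summable.mul_of_nonneg h h2 (fun _ => by positivity) (fun _ => by positivity)
    refine h3.congr fun y => ?_
    simp only [N, g]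
    ring

theorem ZS_pi (j s : ℕ) (hs : j + 1 ≤ s) : ZS (Fin j → ℤ) s := by
  induction j with
  | zero =>
    unfold ZS
    have : Finite {L : AddSubgroup (Fin 0 → ℤ) // L.FiniteIndex} := by
      have : Finite (AddSubgroup (Fin 0 → ℤ)) := by
        have : Subsingleton (AddSubgroup (Fin 0 → ℤ)) := by
          constructor
          intro a b
          ext x
          have : x = 0 := Subsingleton.elim _ _
          subst this
          exact ⟨fun _ => b.zero_mem, fun _ => a.zero_mem⟩
        infer_instance
      infer_instance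
    exact Summable.of_finite
  | succ j ih =>
    have h1 : ZS (ℤ × (Fin j → ℤ)) s := by
      apply ZS_step s _ (ih (by omega))
      simp; omega
    exact ZS_congr (Fin.consLinearEquiv ℤ (fun _ : Fin (j+1) => ℤ)).toAddEquiv s h1

end Pool.Agent.H.MP_a7957c_al
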