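import Mathlib
import Pool.Agent.H.MP_a7957c_al.Zeta

/-! The number of invariant sublattices of index `≤ S` is `o(S ^ rank)`. -/

set_option autoImplicit false

namespace Pool.Agent.H.MP_a7957c_al

open Finset Filter Module Topology

theorem ZS_all {W : Type} [AddCommGroup W] {s : ℕ} (hs : s ≠ 0) (h : ZS W s) :
    Summable (fun L : AddSubgroup W => ((L.index : ℝ) ^ s)⁻¹) := by
  have h1 : Summable ((fun L : AddSubgroup W => ((L.index : ℝ) ^ s)⁻¹) ∘
      (Subtype.val : {L : AddSubgroup W // L.FiniteIndex} → AddSubgroup W)) := h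
  refine (Function.Injective.summable_iff Subtype.val_injective ?_).mp h1
  intro L hL
  have : L.index = 0 := by
    by_contra hcon
    exact hL ⟨⟨L, ⟨hcon⟩⟩, rfl⟩
  rw [this]
  simp [hs]

theorem finite_index_le_of_ZS {W : Type} [AddCommGroup W] {s : ℕ} (hs : s ≠ 0) (h : ZS W s)
    (S : ℕ) : {L : AddSubgroup W | L.index ≠ 0 ∧ L.index ≤ S}.Finite := by
  have h1 := (ZS_all hs h).tendsto_cofinite_zero
  have h2 : ∀ᶠ L : AddSubgroup W in cofinite, ((L.index : ℝ) ^ s)⁻¹ < (((S : ℝ) + 1) ^ s)⁻¹ :=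
    h1.eventually_lt_const (by positivity)
  rw [Filter.eventually_cofinite] at h2
  refine h2.subset ?_
  rintro L ⟨hL0, hLS⟩
  rw [Set.mem_ofPred_eq, not_lt]
  have hL0' : (0 : ℝ) < L.index := by exact_mod_cast Nat.pos_of_ne_zero hL0
  gcongr
  have : (L.index : ℝ) ≤ S := by exact_mod_cast hLS
  linarith

theorem finite_index_le_pi (j S : ℕ) :
    {L : AddSubgroup (Fin j → ℤ) | L.index ≠ 0 ∧ L.index ≤ S}.Finite :=
  finite_index_le_of_ZS (s := j + 1) (by omega) (ZS_pi j (j + 1) le_rfl) S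

theorem ZS_prod (j s : ℕ) (hs : j + 2 ≤ s) : ZS (ℤ × (Fin j → ℤ)) s := by
  apply ZS_step s _ (ZS_pi j s (by omega))
  simp; omega

theorem finite_index_le_prod (j S : ℕ) :
    {L : AddSubgroup (ℤ × (Fin j → ℤ)) | L.index ≠ 0 ∧ L.index ≤ S}.Finite :=
  finite_index_le_of_ZS (s := j + 2) (by omega) (ZS_prod j (j + 2) le_rfl) S

/-- `#Lam` with the convention `0` at `d = 0`. -/
noncomputable def LamC (t D d : ℕ) : ℕ :=
  if h : d = 0 then 0 else haveI : NeZero d := ⟨h⟩; (Lam t D d).card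

theorem LamC_eq (t D d : ℕ) [hd : NeZero d] : LamC t D d = (Lam t D d).card := by
  unfold LamC
  rw [dif_neg hd.1]

theorem LamC_tendsto (t D : ℕ) (ht : 0 < t) (hD : 0 < D) :
    Tendsto (fun d : ℕ => (LamC t D d : ℝ) / d) atTop (𝓝 0) := by
  rw [Metric.tendsto_atTop]
  intro ε hε
  obtain ⟨d0, hd0⟩ := Lam_ratio_small t D ht hD (ε / 2) (by positivity)
  refine ⟨d0 + 1, fun d hd => ?_⟩
  have : NeZero d := ⟨by omega⟩
  have h1 := hd0 d (by omega)
  have hpos : (0 : ℝ) < d := by exact_mod_cast (by omega : 0 < d)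
  rw [Real.dist_eq, sub_zero, abs_of_nonneg (by positivity), LamC_eq, div_lt_iff₀ hpos]
  have : ε / 2 * d < ε * d := by nlinarith
  linarith

section main

variable {j : ℕ} (g : (ℤ × (Fin j → ℤ)) →+ (ℤ × (Fin j → ℤ)))

/-- invariant subgroups of index at most `S`. -/
def InvS (S : ℕ) : Set (AddSubgroup (ℤ × (Fin j → ℤ))) :=
  {L | L.index ≠ 0 ∧ L.index ≤ S ∧ ∀ x ∈ L, g x ∈ L}

theorem InvS_finite (S : ℕ) : (InvS g S).Finite :=
  (finite_index_le_prod j S).subset fun _ hL => ⟨hL.1, hL.2.1⟩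

/-- the part of `InvS` with given image. -/
def InvSF (S : ℕ) (Lb : AddSubgroup (Fin j → ℤ)) : Set (AddSubgroup (ℤ × (Fin j → ℤ))) :=
  {L | L ∈ InvS g S ∧ L.map (AddMonoidHom.snd ℤ (Fin j → ℤ)) = Lb}

theorem InvSF_finite (S : ℕ) (Lb : AddSubgroup (Fin j → ℤ)) : (InvSF g S Lb).Finite :=
  (InvS_finite g S).subset fun _ hL => hL.1

theorem InvSF_mem {S : ℕ} {Lb : AddSubgroup (Fin j → ℤ)} {L : AddSubgroup (ℤ × (Fin j → ℤ))}
    (h : L ∈ InvSF g S Lb) : Lb.index ≠ 0 ∧ ∃ d : ℕ, 1 ≤ d ∧ d ≤ S / Lb.index ∧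
      L ∈ Fib Lb d ∧ ∀ x ∈ L, g x ∈ L := by
  obtain ⟨⟨h1, h2, h3⟩, h4⟩ := h
  have h5 := mem_Fib_self L
  rw [h4] at h5
  have h6 := index_of_mem_Fib h5
  have hd0 : (L.comap (AddMonoidHom.inl ℤ (Fin j → ℤ))).index ≠ 0 := by
    intro h; rw [h, zero_mul] at h6; exact h1 h6
  have ht0 : Lb.index ≠ 0 := by
    intro h; rw [h, mul_zero] at h6; exact h1 h6
  refine ⟨ht0, _, Nat.one_le_iff_ne_zero.mpr hd0, ?_, h5, h3⟩
  rw [Nat.le_div_iff_mul_le (Nat.pos_of_ne_zero ht0), ← h6]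
  exact h2

theorem InvSF_card_le_sum (S : ℕ) (Lb : AddSubgroup (Fin j → ℤ)) [hLb : Lb.FiniteIndex] :
    (InvSF g S Lb).ncard ≤ ∑ d ∈ Finset.Icc 1 (S / Lb.index),
      {L | L ∈ Fib Lb d ∧ ∀ x ∈ L, g x ∈ L}.ncard := by
  classical
  have hfin : ∀ d ∈ Finset.Icc 1 (S / Lb.index),
      ({L | L ∈ Fib Lb d ∧ ∀ x ∈ L, g x ∈ L} : Set (AddSubgroup (ℤ × (Fin j → ℤ)))).Finite := by
    intro d hd
    rw [Finset.mem_Icc] at hd
    have : NeZero d := ⟨by omega⟩
    exact (Fib_finite_card Lb d).1.subset fun L hL => hL.1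
  have h1 : InvSF g S Lb ⊆ ⋃ d ∈ Finset.Icc 1 (S / Lb.index),
      {L | L ∈ Fib Lb d ∧ ∀ x ∈ L, g x ∈ L} := by
    intro L hL
    obtain ⟨_, d, hd1, hd2, hF, hi⟩ := InvSF_mem g hL
    simp only [Set.mem_iUnion]
    exact ⟨d, Finset.mem_Icc.mpr ⟨hd1, hd2⟩, hF, hi⟩
  refine le_trans (Set.ncard_le_ncard h1 (Set.Finite.biUnion (Finset.finite_toSet _) hfin)) ?_
  exact Finset.set_ncard_biUnion_le _ _

theorem InvSF_bound (S : ℕ) (Lb : AddSubgroup (Fin j → ℤ)) :
    (InvSF g S Lb).ncard * Lb.index ^ (j + 1) ≤ S ^ (j + 1) := by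
  by_cases h0 : Lb.index = 0
  · rw [h0]; simp
  · have : Lb.FiniteIndex := ⟨h0⟩
    have h1 := InvSF_card_le_sum g S Lb
    have h2 : ∑ d ∈ Finset.Icc 1 (S / Lb.index),
      {L | L ∈ Fib Lb d ∧ ∀ x ∈ L, g x ∈ L}.ncard ≤
        ∑ d ∈ Finset.Icc 1 (S / Lb.index), (S / Lb.index) ^ j := by
      apply Finset.sum_le_sum
      intro d hd
      rw [Finset.mem_Icc] at hd
      have : NeZero d := ⟨by omega⟩
      have h3 := Fib_finite_card Lb d
      calc _ ≤ (Fib Lb d).ncard := Set.ncard_le_ncard (fun L hL => hL.1) h3.1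
        _ ≤ d ^ finrank ℤ (Fin j → ℤ) := h3.2
        _ = d ^ j := by simp
        _ ≤ _ := Nat.pow_le_pow_left hd.2 _
    rw [Finset.sum_const, smul_eq_mul, Nat.card_Icc, Nat.add_sub_cancel, ← pow_succ'] at h2
    calc (InvSF g S Lb).ncard * Lb.index ^ (j + 1) ≤ (S / Lb.index) ^ (j + 1) * Lb.index ^ (j + 1) :=
          Nat.mul_le_mul_right _ (h1.trans h2)
      _ = (S / Lb.index * Lb.index) ^ (j + 1) := by rw [mul_pow]
      _ ≤ S ^ (j + 1) := Nat.pow_le_pow_left (Nat.div_mul_le_self _ _) _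

theorem InvS_card_le_sum (S : ℕ) : ((InvS g S).ncard : ℝ) ≤
    ∑' Lb : AddSubgroup (Fin j → ℤ), ((InvSF g S Lb).ncard : ℝ) := by
  classical
  let F := (InvS_finite g S).toFinset
  have hF : (InvS g S).ncard = F.card := Set.ncard_eq_toFinset_card _ (InvS_finite g S)
  have h1 := Finset.card_eq_sum_card_image
    (fun L : AddSubgroup (ℤ × (Fin j → ℤ)) => L.map (AddMonoidHom.snd ℤ (Fin j → ℤ))) F
  have h2 : ∀ Lb, (F.filter (fun L => L.map (AddMonoidHom.snd ℤ (Fin j → ℤ)) = Lb)).card =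
      (InvSF g S Lb).ncard := by
    intro Lb
    rw [← Set.ncard_coe_finset]
    congr 1
    ext L
    simp [F, InvSF]
  rw [hF, h1]
  push_cast
  simp only [h2]
  have hsum : Summable fun Lb : AddSubgroup (Fin j → ℤ) => ((InvSF g S Lb).ncard : ℝ) := by
    refine Summable.of_nonneg_of_le (fun _ => by positivity) (fun Lb => ?_)
      ((ZS_all (W := Fin j → ℤ) (s := j + 1) (by omega) (ZS_pi j (j + 1) le_rfl)).mul_left
        ((S : ℝ) ^ (j + 1)))
    by_cases h0 : Lb.index = 0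
    · have : InvSF g S Lb = ∅ := by
        ext L
        simp only [Set.mem_empty_iff_false, iff_false]
        intro hL
        exact (InvSF_mem g hL).1 h0
      rw [this, Set.ncard_empty]
      simp [h0]
    · have hpos : (0 : ℝ) < (Lb.index : ℝ) ^ (j + 1) := by
        have : (0 : ℝ) < Lb.index := by exact_mod_cast Nat.pos_of_ne_zero h0
        positivity
      rw [← div_eq_mul_inv, le_div_iff₀ hpos]
      exact_mod_cast InvSF_bound g S Lb
  exact hsum.sum_le_tsum _ (fun _ _ => by positivity)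

theorem InvSF_tendsto (D : ℕ) (hD : 0 < D) (hgD : ∀ x, g^[D] x = x)
    (hne : (g (1, 0)).2 ≠ 0) (Lb : AddSubgroup (Fin j → ℤ)) :
    Tendsto (fun S : ℕ => ((InvSF g S Lb).ncard : ℝ) / (S : ℝ) ^ (j + 1)) atTop (𝓝 0) := by
  by_cases h0 : Lb.index = 0
  · have : ∀ S, InvSF g S Lb = ∅ := by
      intro S
      ext L
      simp only [Set.mem_empty_iff_false, iff_false]
      intro hL
      exact (InvSF_mem g hL).1 h0
    simp only [this, Set.ncard_empty]
    simp
  · have hfi : Lb.FiniteIndex := ⟨h0⟩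
    have hj : 1 ≤ j := by
      rcases Nat.eq_zero_or_pos j with hj | hj
      · subst hj
        exact absurd (Subsingleton.elim _ _) hne
      · exact hj
    obtain ⟨C, hC⟩ := Fib_inv_card g D hgD hne Lb
    set t := Lb.index with ht
    -- the comparison sequence
    let u : ℕ → ℝ := fun d => (C : ℝ) * ((LamC t D (d + 1) : ℝ) / ((d + 1 : ℕ) : ℝ))
    have hu : Tendsto u atTop (𝓝 0) := by
      have h1 := (LamC_tendsto t D (Nat.pos_of_ne_zero h0) hD).comp (tendsto_add_atTop_nat 1)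
      have h2 := h1.const_mul (C : ℝ)
      rw [mul_zero] at h2
      exact h2
    have hces := hu.cesaro
    refine squeeze_zero' (Eventually.of_forall fun S => by positivity) ?_ hces
    filter_upwards [eventually_ge_atTop 1] with S hS
    have hS0 : (0 : ℝ) < S := by exact_mod_cast (by omega : 0 < S)
    rw [div_le_iff₀ (by positivity)]
    have h1 : ((InvSF g S Lb).ncard : ℝ) ≤ ∑ d ∈ Finset.Icc 1 S,
        (C : ℝ) * (LamC t D d : ℝ) * (d : ℝ) ^ (j - 1) := by
      have h2 := InvSF_card_le_sum g S Lb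
      have h3 : ∑ d ∈ Finset.Icc 1 (S / Lb.index),
        {L | L ∈ Fib Lb d ∧ ∀ x ∈ L, g x ∈ L}.ncard ≤
          ∑ d ∈ Finset.Icc 1 S, C * LamC t D d * d ^ (j - 1) := by
        refine le_trans (Finset.sum_le_sum_of_subset (f := fun d =>
          {L | L ∈ Fib Lb d ∧ ∀ x ∈ L, g x ∈ L}.ncard) (Finset.Icc_subset_Icc_right
          (Nat.div_le_self S Lb.index))) ?_
        apply Finset.sum_le_sum
        intro d hd
        rw [Finset.mem_Icc] at hd
        have : NeZero d := ⟨by omega⟩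
        have h4 := hC d
        rw [← LamC_eq] at h4
        simpa using h4
      exact_mod_cast h2.trans h3
    refine le_trans h1 ?_
    rw [Finset.mul_sum, Finset.sum_mul]
    have h5 : ∑ d ∈ Finset.Icc 1 S, (C : ℝ) * (LamC t D d : ℝ) * (d : ℝ) ^ (j - 1) =
        ∑ i ∈ Finset.range S, (C : ℝ) * (LamC t D (i + 1) : ℝ) * ((i + 1 : ℕ) : ℝ) ^ (j - 1) := by
      rw [Finset.range_eq_Ico, Finset.sum_Ico_add'
        (fun d : ℕ => (C : ℝ) * (LamC t D d : ℝ) * (d : ℝ) ^ (j - 1)) 0 S 1]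
      rw [zero_add, Finset.Ico_add_one_right_eq_Icc]
    rw [h5]
    apply Finset.sum_le_sum
    intro i hi
    rw [Finset.mem_range] at hi
    have hi0 : (0 : ℝ) < ((i + 1 : ℕ) : ℝ) := by positivity
    have hiS : ((i + 1 : ℕ) : ℝ) ≤ S := by exact_mod_cast (by omega : i + 1 ≤ S)
    have h6 : (S : ℝ)⁻¹ * u i * (S : ℝ) ^ (j + 1) = (C : ℝ) * (LamC t D (i + 1) : ℝ) *
        ((S : ℝ) ^ j / ((i + 1 : ℕ) : ℝ)) := by
      simp only [u]
      field_simp
      ring
    rw [h6]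
    apply mul_le_mul_of_nonneg_left _ (by positivity)
    rw [le_div_iff₀ hi0, ← pow_succ, Nat.sub_add_cancel hj]
    exact pow_le_pow_left₀ hi0.le hiS _

theorem InvS_tendsto (D : ℕ) (hD : 0 < D) (hgD : ∀ x, g^[D] x = x)
    (hne : (g (1, 0)).2 ≠ 0) :
    Tendsto (fun S : ℕ => ((InvS g S).ncard : ℝ) / (S : ℝ) ^ (j + 1)) atTop (𝓝 0) := by
  have hb := ZS_all (W := Fin j → ℤ) (s := j + 1) (by omega) (ZS_pi j (j + 1) le_rfl)
  have h1 := tendsto_tsum_of_dominated_convergence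
    (f := fun (S : ℕ) (Lb : AddSubgroup (Fin j → ℤ)) =>
      ((InvSF g S Lb).ncard : ℝ) / (S : ℝ) ^ (j + 1)) (𝓕 := atTop) (g := fun _ => (0 : ℝ)) hb
    (fun Lb => InvSF_tendsto g D hD hgD hne Lb) ?_
  · rw [tsum_zero] at h1
    refine squeeze_zero (fun S => by positivity) (fun S => ?_) h1
    rw [tsum_div_const]
    exact div_le_div_of_nonneg_right (InvS_card_le_sum g S) (by positivity)
  · filter_upwards [eventually_ge_atTop 1] with S hS Lb
    have hS0 : (0 : ℝ) < S := by exact_mod_cast (by omega : 0 < S)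
    rw [Real.norm_of_nonneg (by positivity), div_le_iff₀ (by positivity)]
    by_cases h0 : Lb.index = 0
    · have : InvSF g S Lb = ∅ := by
        ext L
        simp only [Set.mem_empty_iff_false, iff_false]
        intro hL
        exact (InvSF_mem g hL).1 h0
      rw [this, Set.ncard_empty]
      simp [h0]
    · have hpos : (0 : ℝ) < (Lb.index : ℝ) ^ (j + 1) := by
        have : (0 : ℝ) < Lb.index := by exact_mod_cast Nat.pos_of_ne_zero h0
        positivity
      rw [inv_mul_eq_div, le_div_iff₀ hpos]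
      exact_mod_cast InvSF_bound g S Lb

end main

end Pool.Agent.H.MP_a7957c_al
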