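import Mathlib
import Pool.Agent.H.MP_a7957c_al.InvCount

/-! Invariant sublattices of `ℤ ^ m` for a non-scalar automorphism of finite order. -/

set_option autoImplicit false

namespace Pool.Agent.H.MP_a7957c_al

open Finset Filter Module Topology

/-- transvection on `ℤ ^ m` -/
def transv {m : ℕ} (i k : Fin m) (hik : i ≠ k) : (Fin m → ℤ) ≃+ (Fin m → ℤ) where
  toFun v := v + Pi.single k (v i)
  invFun v := v - Pi.single k (v i)
  left_inv v := by
    have : (v + Pi.single k (v i) : Fin m → ℤ) i = v i := by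
      simp [Pi.single_eq_of_ne hik]
    simp only [this]
    abel
  right_inv v := by
    have : (v - Pi.single k (v i) : Fin m → ℤ) i = v i := by
      simp [Pi.single_eq_of_ne hik]
    simp only [this]
    abel
  map_add' v w := by
    simp only [Pi.add_apply, Pi.single_add]
    abel

theorem transv_single {m : ℕ} (i k : Fin m) (hik : i ≠ k) :
    transv i k hik (Pi.single i 1) = Pi.single i 1 + Pi.single k 1 := by
  simp [transv]

theorem exists_noneigen {j : ℕ} (g : (Fin (j + 1) → ℤ) →+ (Fin (j + 1) → ℤ))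
    (hg : ∃ v, g v ∉ AddSubgroup.zmultiples v) :
    ∃ A : (Fin (j + 1) → ℤ) ≃+ (Fin (j + 1) → ℤ),
      g (A (Pi.single 0 1)) ∉ AddSubgroup.zmultiples (A (Pi.single 0 1)) := by
  by_contra hcon
  push Not at hcon
  -- swaps
  let sw : Fin (j + 1) → ((Fin (j + 1) → ℤ) ≃+ (Fin (j + 1) → ℤ)) := fun i =>
    (LinearEquiv.funCongrLeft ℤ ℤ (Equiv.swap 0 i)).toAddEquiv
  have hsw : ∀ i, sw i (Pi.single 0 1) = Pi.single i 1 := by
    intro i
    funext x
    have h1 : sw i (Pi.single 0 1) x = (Pi.single (0 : Fin (j+1)) (1 : ℤ) : Fin (j+1) → ℤ) (Equiv.swap 0 i x) := rfl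
    rw [h1, Pi.single_apply, Pi.single_apply]
    congr 1
    apply propext
    constructor
    · intro h
      have := congrArg (Equiv.swap 0 i) h
      simpa using this
    · intro h
      rw [h]; simp
  have h1 : ∀ i, ∃ a : ℤ, g (Pi.single i 1) = a • Pi.single i 1 := by
    intro i
    have := hcon (sw i)
    rw [hsw, AddSubgroup.mem_zmultiples_iff] at this
    obtain ⟨a, ha⟩ := this
    exact ⟨a, ha.symm⟩
  choose α hα using h1
  have h2 : ∀ i k, i ≠ k → α i = α k := by
    intro i k hik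
    have := hcon ((sw i).trans (transv i k hik))
    rw [AddEquiv.trans_apply, hsw, transv_single, AddSubgroup.mem_zmultiples_iff, map_add, hα, hα] at this
    obtain ⟨b, hb⟩ := this
    have hbi := congrFun hb i
    have hbk := congrFun hb k
    simp [Pi.single_eq_of_ne hik, Pi.single_eq_of_ne hik.symm] at hbi hbk
    rw [← hbi, ← hbk]
  obtain ⟨v, hv⟩ := hg
  apply hv
  rw [AddSubgroup.mem_zmultiples_iff]
  refine ⟨α 0, ?_⟩
  have hα0 : ∀ i, α i = α 0 := by
    intro i
    by_cases h : i = 0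
    · rw [h]
    · exact h2 i 0 h
  conv_rhs => rw [← Finset.univ_sum_single v]
  rw [map_sum]
  conv_lhs => rw [← Finset.univ_sum_single v]
  rw [Finset.smul_sum]
  refine Finset.sum_congr rfl fun i _ => ?_
  have h3 : (Pi.single i (v i) : Fin (j+1) → ℤ) = v i • Pi.single i 1 := by
    rw [← Pi.single_smul]; simp
  rw [h3, map_zsmul, hα, hα0 i, smul_comm]

/-- invariant subgroups of index at most `S` in `ℤ ^ m`. -/
def InvP {m : ℕ} (g : (Fin m → ℤ) →+ (Fin m → ℤ)) (S : ℕ) : Set (AddSubgroup (Fin m → ℤ)) :=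
  {L | L.index ≠ 0 ∧ L.index ≤ S ∧ ∀ x ∈ L, g x ∈ L}

theorem InvP_finite {m : ℕ} (g : (Fin m → ℤ) →+ (Fin m → ℤ)) (S : ℕ) : (InvP g S).Finite :=
  (finite_index_le_pi m S).subset fun _ hL => ⟨hL.1, hL.2.1⟩

theorem InvP_tendsto {m : ℕ} (g : (Fin m → ℤ) →+ (Fin m → ℤ)) (D : ℕ) (hD : 0 < D)
    (hgD : ∀ x, g^[D] x = x) (hg : ∃ v, g v ∉ AddSubgroup.zmultiples v) :
    Tendsto (fun S : ℕ => ((InvP g S).ncard : ℝ) / (S : ℝ) ^ m) atTop (𝓝 0) := by
  rcases m with _ | j
  · exfalso
    obtain ⟨v, hv⟩ := hg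
    apply hv
    rw [Subsingleton.elim (g v) 0]
    exact AddSubgroup.zero_mem _
  obtain ⟨A, hA⟩ := exists_noneigen g hg
  let c : (Fin (j + 1) → ℤ) ≃+ (ℤ × (Fin j → ℤ)) :=
    (Fin.consLinearEquiv ℤ (fun _ : Fin (j+1) => ℤ)).toAddEquiv.symm
  let e : (Fin (j + 1) → ℤ) ≃+ (ℤ × (Fin j → ℤ)) := A.symm.trans c
  have he0 : e.symm (1, 0) = A (Pi.single 0 1) := by
    have h1 : c.symm (1, 0) = Pi.single 0 1 := by
      funext x
      have : c.symm (1, 0) x = (Fin.cons (1 : ℤ) (0 : Fin j → ℤ) : Fin (j+1) → ℤ) x := rfl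
      rw [this]
      refine Fin.cases ?_ (fun i => ?_) x
      · simp
      · simp
    have h2 : e.symm (1, 0) = A (c.symm (1, 0)) := rfl
    rw [h2, h1]
  let g' : (ℤ × (Fin j → ℤ)) →+ (ℤ × (Fin j → ℤ)) :=
    (e.toAddMonoidHom.comp g).comp e.symm.toAddMonoidHom
  have hg' : ∀ x, g' x = e (g (e.symm x)) := fun x => rfl
  have hiter : ∀ n x, g'^[n] x = e (g^[n] (e.symm x)) := by
    intro n
    induction n with
    | zero => intro x; simp
    | succ n ih =>
      intro x
      rw [Function.iterate_succ_apply', ih, hg', Function.iterate_succ_apply', e.symm_apply_apply]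
  have hg'D : ∀ x, g'^[D] x = x := by
    intro x
    rw [hiter, hgD, e.apply_symm_apply]
  have hne : (g' (1, 0)).2 ≠ 0 := by
    intro h
    apply hA
    rw [← he0]
    have h1 : g' (1, 0) = (g' (1, 0)).1 • ((1 : ℤ), (0 : Fin j → ℤ)) := by
      apply Prod.ext
      · simp
      · simp [h]
    rw [AddSubgroup.mem_zmultiples_iff]
    refine ⟨(g' (1, 0)).1, ?_⟩
    apply e.injective
    rw [map_zsmul, e.apply_symm_apply, ← h1, hg']
  have hmain := InvS_tendsto g' D hD hg'D hne
  have hle : ∀ S, (InvP g S).ncard ≤ (InvS g' S).ncard := by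
    intro S
    refine Set.ncard_le_ncard_of_injOn (fun L => L.map e.toAddMonoidHom) ?_ ?_ (InvS_finite g' S)
    · intro L hL
      have h1 : (L.map e.toAddMonoidHom).index = L.index := AddSubgroup.index_map_equiv L e
      refine ⟨by rw [h1]; exact hL.1, by rw [h1]; exact hL.2.1, ?_⟩
      rintro _ ⟨x, hx, rfl⟩
      refine ⟨g x, hL.2.2 x hx, ?_⟩
      have : g' (e x) = e (g x) := by rw [hg', e.symm_apply_apply]
      exact this.symm
    · intro L _ L' _ h
      exact AddSubgroup.map_injective e.injective h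
  refine squeeze_zero (fun S => by positivity) (fun S => ?_) hmain
  apply div_le_div_of_nonneg_right _ (by positivity)
  exact_mod_cast hle S

end Pool.Agent.H.MP_a7957c_al
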