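import Mathlib
import Pool.Agent.H.MP_a7957c_al.Crossed
import Pool.Agent.H.MP_a7957c_al.InvCountPi

/-! Counting normal subgroups isomorphic to `ℤ ^ m` in a group with few generators. -/

set_option autoImplicit false

namespace Pool.Agent.H.MP_a7957c_al

open Finset Filter Module Topology

/-- The set to be counted. -/
def KK (Γ : Type) [Group Γ] (m s : ℕ) : Set (Subgroup Γ) :=
  {K | K.Normal ∧ K.index ≠ 0 ∧ K.index ≤ s ∧ Nonempty (K ≃* Multiplicative (Fin m → ℤ))}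

section

variable {Γ : Type} [Group Γ] {m : ℕ}

/-- torsion-freeness -/
theorem eq_one_of_pow {K : Subgroup Γ} (e : K ≃* Multiplicative (Fin m → ℤ)) {k : Γ} (hk : k ∈ K)
    {n : ℕ} (hn : n ≠ 0) (h : k ^ n = 1) : k = 1 := by
  have h1 : (⟨k, hk⟩ : K) ^ n = 1 := Subtype.ext h
  have h2 := ev_pow K e ⟨k, hk⟩ n
  rw [h1, ev_one] at h2
  have h3 : ev K e ⟨k, hk⟩ = 0 := by
    funext i
    have := congrFun h2 i
    simp only [Pi.zero_apply, Pi.smul_apply, nsmul_eq_mul] at this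
    have h4 : (n : ℤ) ≠ 0 := by exact_mod_cast hn
    rcases mul_eq_zero.mp this.symm with h5 | h5
    · exact absurd h5 h4
    · exact h5
  have h4 : (⟨k, hk⟩ : K) = 1 := ev_inj K e (by rw [h3, ev_one])
  exact congrArg Subtype.val h4

variable (K₀ : Subgroup Γ) [hN : K₀.Normal] [hF : K₀.FiniteIndex]
  (e : K₀ ≃* Multiplicative (Fin m → ℤ))

include e in
omit hF in
theorem centralizes {s : ℕ} {K : Subgroup Γ} (hK : K ∈ KK Γ m s) {k : Γ} (hk : k ∈ K) :
    ∀ x ∈ K₀, k * x = x * k := by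
  intro x hx
  obtain ⟨h1, h2, _, ⟨e'⟩⟩ := hK
  -- `x ^ t ∈ K`
  have hxt : x ^ K.index ∈ K := Subgroup.pow_index_mem K x
  have hcomm : k * x ^ K.index = x ^ K.index * k := by
    have := comm_K0 K e' ⟨k, hk⟩ ⟨_, hxt⟩
    exact congrArg Subtype.val this
  have h3 : (k * x * k⁻¹) ^ K.index = x ^ K.index := by
    rw [conj_pow, hcomm, mul_inv_cancel_right]
  have hmem : k * x * k⁻¹ ∈ K₀ := hN.conj_mem x hx k
  have hc2 : (k * x * k⁻¹) * x⁻¹ = x⁻¹ * (k * x * k⁻¹) := by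
    have := comm_K0 K₀ e ⟨_, hmem⟩ ⟨_, K₀.inv_mem hx⟩
    exact congrArg Subtype.val this
  have h4 : ((k * x * k⁻¹) * x⁻¹) ^ K.index = 1 := by
    have hC : Commute (k * x * k⁻¹) x⁻¹ := hc2
    rw [hC.mul_pow, h3, inv_pow, mul_inv_cancel]
  have h5 := eq_one_of_pow e (K₀.mul_mem hmem (K₀.inv_mem hx)) h2 h4
  have h6 : k * x * k⁻¹ = x := by
    rwa [mul_inv_eq_one] at h5
  rw [mul_inv_eq_iff_eq_mul] at h6
  exact h6

/-- The image lattice. -/
noncomputable def LL (K : Subgroup Γ) : AddSubgroup (Fin m → ℤ) :=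
  AddSubgroup.closure (cc K₀ e '' K)

theorem mem_LL {s : ℕ} {K : Subgroup Γ} (hK : K ∈ KK Γ m s) (x : Fin m → ℤ) :
    x ∈ LL K₀ e K ↔ ∃ k ∈ K, cc K₀ e k = x := by
  constructor
  · intro hx
    unfold LL at hx
    induction hx using AddSubgroup.closure_induction with
    | mem x hx =>
      obtain ⟨k, hk, rfl⟩ := hx
      exact ⟨k, hk, rfl⟩
    | zero => exact ⟨1, K.one_mem, cc_one K₀ e⟩
    | add x y _ _ hx hy =>
      obtain ⟨k, hk, rfl⟩ := hx
      obtain ⟨k', hk', rfl⟩ := hy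
      exact ⟨k * k', K.mul_mem hk hk', cc_mul_of_comm K₀ e (centralizes K₀ e hK hk) k'⟩
    | neg x _ hx =>
      obtain ⟨k, hk, rfl⟩ := hx
      exact ⟨k⁻¹, K.inv_mem hk, cc_inv_of_comm K₀ e (centralizes K₀ e hK hk)⟩
  · rintro ⟨k, hk, rfl⟩
    exact AddSubgroup.subset_closure ⟨k, hk, rfl⟩

theorem cc_injOn {s : ℕ} {K : Subgroup Γ} (hK : K ∈ KK Γ m s) {k k' : Γ} (hk : k ∈ K)
    (hk' : k' ∈ K) (h : cc K₀ e k = cc K₀ e k') : k = k' := by
  have h0 : cc K₀ e (k * k'⁻¹) = 0 := by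
    rw [cc_mul_of_comm K₀ e (centralizes K₀ e hK hk),
      cc_inv_of_comm K₀ e (centralizes K₀ e hK hk'), h, add_neg_cancel]
  have hkk : k * k'⁻¹ ∈ K := K.mul_mem hk (K.inv_mem hk')
  have h1 := cc_pow_of_comm K₀ e (centralizes K₀ e hK hkk) K₀.index
  rw [h0, smul_zero, cc_mem K₀ e (Subgroup.pow_index_mem K₀ _)] at h1
  have hD : K₀.index ≠ 0 := hF.index_ne_zero
  have h2 : ev K₀ e ⟨(k * k'⁻¹) ^ K₀.index, Subgroup.pow_index_mem K₀ _⟩ = 0 := by
    funext i
    have := congrFun h1 i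
    simp only [Pi.zero_apply, Pi.smul_apply, nsmul_eq_mul] at this
    have h4 : (K₀.index : ℤ) ≠ 0 := by exact_mod_cast hD
    rcases mul_eq_zero.mp this with h5 | h5
    · exact absurd h5 h4
    · exact h5
  have h3 : (⟨(k * k'⁻¹) ^ K₀.index, Subgroup.pow_index_mem K₀ _⟩ : K₀) = 1 :=
    ev_inj K₀ e (by rw [h2, ev_one])
  have h4 : (k * k'⁻¹) ^ K₀.index = 1 := congrArg Subtype.val h3
  obtain ⟨_, _, _, ⟨e'⟩⟩ := hK
  have h5 := eq_one_of_pow e' hkk hD h4
  rwa [mul_inv_eq_one] at h5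

theorem LL_inv {s : ℕ} {K : Subgroup Γ} (hK : K ∈ KK Γ m s) (γ : Γ) :
    ∀ x ∈ LL K₀ e K, rho K₀ e γ x ∈ LL K₀ e K := by
  intro x hx
  rw [mem_LL K₀ e hK] at hx ⊢
  obtain ⟨k, hk, rfl⟩ := hx
  refine ⟨γ * k * γ⁻¹, hK.1.conj_mem k hk γ, ?_⟩
  exact cc_conj K₀ e (centralizes K₀ e hK hk) γ

theorem LL_index {s : ℕ} {K : Subgroup Γ} (hK : K ∈ KK Γ m s) :
    (LL K₀ e K).index ≠ 0 ∧ (LL K₀ e K).index ≤ K₀.index ^ m * s := by
  have hD : K₀.index ≠ 0 := hF.index_ne_zero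
  -- the lattice `Λ = ev (K ∩ K₀)`
  let Λ : AddSubgroup (Fin m → ℤ) :=
    Subgroup.toAddSubgroup' ((K.subgroupOf K₀).map (e : K₀ →* Multiplicative (Fin m → ℤ)))
  have hΛidx : Λ.index = K.relIndex K₀ := by
    rw [← AddSubgroup.index_toSubgroup]
    have : AddSubgroup.toSubgroup Λ = (K.subgroupOf K₀).map (e : K₀ →* Multiplicative (Fin m → ℤ)) := rfl
    rw [this, Subgroup.index_map_equiv]
    rfl
  have hΛmem : ∀ x ∈ Λ, ∃ k, ∃ hk : k ∈ K₀, k ∈ K ∧ ev K₀ e ⟨k, hk⟩ = x := by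
    rintro x ⟨⟨k, hk⟩, hkK, hx⟩
    exact ⟨k, hk, hkK, hx⟩
  have hrel0 : K.relIndex K₀ ≠ 0 := by
    intro h
    exact hK.2.1 (Subgroup.index_eq_zero_of_relIndex_eq_zero h)
  have hrel : K.relIndex K₀ ≤ s := by
    refine le_trans ?_ hK.2.2.1
    have : K.relIndex K₀ ≤ K.relIndex ⊤ :=
      Subgroup.relIndex_le_of_le_right le_top (by rw [Subgroup.relIndex_top_right]; exact hK.2.1)
    rwa [Subgroup.relIndex_top_right] at this
  -- multiply by D
  let Λ' := Λ.map (nsmulAddMonoidHom (α := Fin m → ℤ) K₀.index)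
  have hinj : Function.Injective (nsmulAddMonoidHom (α := Fin m → ℤ) K₀.index) :=
    AddSubgroup.nsmulAddMonoidHom_injective_of_isTorsionFree hD
  have hidx' : Λ'.index = Λ.index * K₀.index ^ m := by
    rw [AddSubgroup.index_map_of_injective Λ hinj, AddSubgroup.index_range_nsmul]
    simp
  have hle : Λ' ≤ LL K₀ e K := by
    rintro _ ⟨x, hx, rfl⟩
    obtain ⟨k, hk, hkK, rfl⟩ := hΛmem x hx
    rw [mem_LL K₀ e hK]
    exact ⟨k, hkK, cc_mem K₀ e hk⟩
  have h0 : Λ'.index ≠ 0 := by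
    rw [hidx', hΛidx]
    exact mul_ne_zero hrel0 (pow_ne_zero _ hD)
  have hfi : Λ'.FiniteIndex := ⟨h0⟩
  refine ⟨?_, ?_⟩
  · intro h
    have := AddSubgroup.index_dvd_of_le hle
    rw [h] at this
    exact h0 (Nat.eq_zero_of_zero_dvd this)
  · calc (LL K₀ e K).index ≤ Λ'.index := AddSubgroup.index_antitone hle
      _ = K.relIndex K₀ * K₀.index ^ m := by rw [hidx', hΛidx]
      _ ≤ s * K₀.index ^ m := Nat.mul_le_mul_right _ hrel
      _ = _ := mul_comm _ _

end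

/-- a generating family with `m` elements of a finite index lattice. -/
theorem exists_gens {m : ℕ} (L : AddSubgroup (Fin m → ℤ)) (hL : L.index ≠ 0) :
    ∃ u : Fin m → (Fin m → ℤ), AddSubgroup.closure (Set.range u) = L := by
  have : L.FiniteIndex := ⟨hL⟩
  have : Module.Free ℤ L := inferInstanceAs (Module.Free ℤ L.toIntSubmodule)
  have : Module.Finite ℤ L := inferInstanceAs (Module.Finite ℤ L.toIntSubmodule)
  have hrank : finrank ℤ L = m := by
    rw [AddSubgroup.finrank_eq_of_finiteIndex L]; simp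
  let b : Basis (Fin m) ℤ L := Module.finBasisOfFinrankEq ℤ L hrank
  refine ⟨fun i => (b i : Fin m → ℤ), le_antisymm ?_ ?_⟩
  · rw [AddSubgroup.closure_le]
    rintro _ ⟨i, rfl⟩
    exact (b i).2
  · intro x hx
    have h1 := b.sum_repr ⟨x, hx⟩
    have h2 : x = ∑ i, (b.repr ⟨x, hx⟩ i) • (b i : Fin m → ℤ) := by
      have h3 : ((∑ i, b.repr ⟨x, hx⟩ i • b i : L) : Fin m → ℤ) = x := congrArg Subtype.val h1
      rw [AddSubgroup.val_finsetSum] at h3
      exact h3.symm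
    rw [h2]
    refine AddSubgroup.sum_mem _ fun i _ => ?_
    exact AddSubgroup.zsmul_mem _ (AddSubgroup.subset_closure (Set.mem_range_self i)) _

section

variable {Γ : Type} [Group Γ] {m : ℕ}

variable (K₀ : Subgroup Γ) [hN : K₀.Normal] [hF : K₀.FiniteIndex]
  (e : K₀ ≃* Multiplicative (Fin m → ℤ))

/-- chosen generators. -/
noncomputable def ug (L : AddSubgroup (Fin m → ℤ)) : Fin m → (Fin m → ℤ) := by
  classical
  exact if h : L.index ≠ 0 then Classical.choose (exists_gens L h) else 0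

theorem ug_spec (L : AddSubgroup (Fin m → ℤ)) (h : L.index ≠ 0) :
    AddSubgroup.closure (Set.range (ug L)) = L := by
  unfold ug
  rw [dif_pos h]
  exact Classical.choose_spec (exists_gens L h)

theorem exists_kg {s : ℕ} {K : Subgroup Γ} (hK : K ∈ KK Γ m s) :
    ∃ k : Fin m → Γ, (∀ i, k i ∈ K) ∧ (∀ i, cc K₀ e (k i) = ug (LL K₀ e K) i) ∧
      K = Subgroup.closure (Set.range k) := by
  have hidx := (LL_index K₀ e hK).1
  have hug := ug_spec (LL K₀ e K) hidx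
  have h1 : ∀ i, ∃ k ∈ K, cc K₀ e k = ug (LL K₀ e K) i := by
    intro i
    have h2 : ug (LL K₀ e K) i ∈ AddSubgroup.closure (Set.range (ug (LL K₀ e K))) :=
      AddSubgroup.subset_closure (Set.mem_range_self i)
    rw [hug, mem_LL K₀ e hK] at h2
    exact h2
  choose k hk hck using h1
  refine ⟨k, hk, hck, le_antisymm ?_ ?_⟩
  · intro x hx
    have hle : Subgroup.closure (Set.range k) ≤ K := by
      rw [Subgroup.closure_le]; rintro _ ⟨i, rfl⟩; exact hk i
    have h2 : cc K₀ e x ∈ AddSubgroup.closure (Set.range (ug (LL K₀ e K))) := by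
      rw [hug, mem_LL K₀ e hK]; exact ⟨x, hx, rfl⟩
    have h3 : ∀ y ∈ AddSubgroup.closure (Set.range (ug (LL K₀ e K))),
        ∃ z ∈ Subgroup.closure (Set.range k), cc K₀ e z = y := by
      intro y hy
      induction hy using AddSubgroup.closure_induction with
      | mem y hy =>
        obtain ⟨i, rfl⟩ := hy
        exact ⟨k i, Subgroup.subset_closure (Set.mem_range_self i), hck i⟩
      | zero => exact ⟨1, Subgroup.one_mem _, cc_one K₀ e⟩
      | add x y _ _ hx hy =>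
        obtain ⟨a, ha, rfl⟩ := hx
        obtain ⟨b, hb, rfl⟩ := hy
        exact ⟨a * b, Subgroup.mul_mem _ ha hb,
          cc_mul_of_comm K₀ e (centralizes K₀ e hK (hle ha)) b⟩
      | neg x _ hx =>
        obtain ⟨a, ha, rfl⟩ := hx
        exact ⟨a⁻¹, Subgroup.inv_mem _ ha, cc_inv_of_comm K₀ e (centralizes K₀ e hK (hle ha))⟩
    obtain ⟨z, hz, hzx⟩ := h3 _ h2
    have := cc_injOn K₀ e hK (hle hz) hx hzx
    rw [← this]; exact hz
  · rw [Subgroup.closure_le]; rintro _ ⟨i, rfl⟩; exact hk i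

/-- The encoding of `K`. -/
noncomputable def code (K : Subgroup Γ) : AddSubgroup (Fin m → ℤ) × (Fin m → Γ ⧸ K₀) := by
  classical
  exact if h : ∃ s, K ∈ KK Γ m s then
    (LL K₀ e K, fun i => (Classical.choose (exists_kg K₀ e (Classical.choose_spec h)) i : Γ ⧸ K₀))
  else (⊤, fun _ => 1)

theorem code_injOn (s : ℕ) : Set.InjOn (code K₀ e) (KK Γ m s) := by
  intro K hK K' hK' h
  have hs : ∃ s, K ∈ KK Γ m s := ⟨s, hK⟩
  have hs' : ∃ s, K' ∈ KK Γ m s := ⟨s, hK'⟩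
  unfold code at h
  rw [dif_pos hs, dif_pos hs', Prod.mk.injEq] at h
  obtain ⟨h1, h2⟩ := h
  obtain ⟨hk1, hk2, hk3⟩ := Classical.choose_spec (exists_kg K₀ e (Classical.choose_spec hs))
  obtain ⟨hk1', hk2', hk3'⟩ := Classical.choose_spec (exists_kg K₀ e (Classical.choose_spec hs'))
  set k := Classical.choose (exists_kg K₀ e (Classical.choose_spec hs)) with hkdef
  set k' := Classical.choose (exists_kg K₀ e (Classical.choose_spec hs')) with hkdef'
  rw [hk3, hk3']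
  have hkk : k = k' := by
    funext i
    have h3 : cc K₀ e (k i) = cc K₀ e (k' i) := by rw [hk2, hk2', h1]
    have h4 : (k i : Γ ⧸ K₀) = (k' i : Γ ⧸ K₀) := congrFun h2 i
    rw [QuotientGroup.eq] at h4
    have h5 : cc K₀ e ((k i)⁻¹ * k' i) = 0 := by
      have hcent : ∀ x ∈ K₀, (k i)⁻¹ * x = x * (k i)⁻¹ := centralizes K₀ e hK (K.inv_mem (hk1 i))
      rw [cc_mul_of_comm K₀ e hcent, cc_inv_of_comm K₀ e (centralizes K₀ e hK (hk1 i)), h3,
        neg_add_cancel]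
    rw [cc_mem K₀ e h4] at h5
    have hD : K₀.index ≠ 0 := hF.index_ne_zero
    have h6 : ev K₀ e ⟨(k i)⁻¹ * k' i, h4⟩ = 0 := by
      funext j
      have := congrFun h5 j
      simp only [Pi.zero_apply, Pi.smul_apply, nsmul_eq_mul] at this
      have h4 : (K₀.index : ℤ) ≠ 0 := by exact_mod_cast hD
      rcases mul_eq_zero.mp this with h5 | h5
      · exact absurd h5 h4
      · exact h5
    have h7 : (⟨(k i)⁻¹ * k' i, h4⟩ : K₀) = 1 := ev_inj K₀ e (by rw [h6, ev_one])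
    have h8 : (k i)⁻¹ * k' i = 1 := congrArg Subtype.val h7
    rw [inv_mul_eq_one] at h8
    exact h8
  rw [hkk]

theorem KK_bound (γ : Γ) (s : ℕ) : (KK Γ m s).Finite ∧ (KK Γ m s).ncard ≤
    (InvP (rho K₀ e γ) (K₀.index ^ m * s)).ncard * K₀.index ^ m := by
  classical
  let T : Set (AddSubgroup (Fin m → ℤ) × (Fin m → Γ ⧸ K₀)) :=
    (InvP (rho K₀ e γ) (K₀.index ^ m * s)) ×ˢ (Set.univ : Set (Fin m → Γ ⧸ K₀))
  have hT : T.Finite := (InvP_finite _ _).prod Set.finite_univ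
  have hmaps : ∀ K ∈ KK Γ m s, code K₀ e K ∈ T := by
    intro K hK
    have hs : ∃ s, K ∈ KK Γ m s := ⟨s, hK⟩
    unfold code
    rw [dif_pos hs]
    refine ⟨⟨(LL_index K₀ e hK).1, (LL_index K₀ e hK).2, LL_inv K₀ e hK γ⟩, trivial⟩
  refine ⟨Set.Finite.of_finite_image (hT.subset (Set.image_subset_iff.mpr hmaps)) (code_injOn K₀ e s), ?_⟩
  have h1 := Set.ncard_le_ncard_of_injOn _ hmaps (code_injOn K₀ e s) hT
  refine le_trans h1 ?_
  rw [Set.ncard_prod]
  apply Nat.mul_le_mul_left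
  rw [Set.ncard_univ, Nat.card_eq_fintype_card, Fintype.card_fun, Fintype.card_fin,
    Subgroup.index_eq_card, Nat.card_eq_fintype_card]

end

/-- Main counting result for a group with fewer generators than `m`. -/
theorem KK_tendsto {Γ : Type} [Group Γ] {n m : ℕ} (hnm : n < m) (gen : Fin n → Γ)
    (hgen : Subgroup.closure (Set.range gen) = ⊤) :
    (∀ s, (KK Γ m s).Finite) ∧
      Tendsto (fun s : ℕ => ((KK Γ m s).ncard : ℝ) / (s : ℝ) ^ m) atTop (𝓝 0) := by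
  classical
  by_cases hex : ∃ s, (KK Γ m s).Nonempty
  · obtain ⟨s0, K₀, hK₀⟩ := hex
    obtain ⟨hN, hF0, _, ⟨e⟩⟩ := hK₀
    have hF : K₀.FiniteIndex := ⟨hF0⟩
    obtain ⟨γ, hγ⟩ := exists_nonscalar K₀ e hnm gen hgen
    have hD : 0 < K₀.index := Nat.pos_of_ne_zero hF0
    have hgD : ∀ x, (rho K₀ e γ)^[K₀.index] x = x := by
      intro x
      rw [rho_pow, rho_mem K₀ e (Subgroup.pow_index_mem K₀ γ)]
    have h1 := InvP_tendsto (rho K₀ e γ) K₀.index hD hgD hγ
    refine ⟨fun s => (KK_bound K₀ e γ s).1, ?_⟩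
    have hDm : 0 < K₀.index ^ m := by positivity
    have h2 : Tendsto (fun s : ℕ => K₀.index ^ m * s) atTop atTop :=
      Filter.tendsto_atTop_mono (fun s => Nat.le_mul_of_pos_left s hDm) tendsto_id
    have h3 := (h1.comp h2).mul_const (((K₀.index : ℝ) ^ m) ^ m * (K₀.index : ℝ) ^ m)
    rw [zero_mul] at h3
    refine squeeze_zero' (Eventually.of_forall fun s => by positivity) ?_ h3
    filter_upwards [eventually_ge_atTop 1] with s hs
    have hs0 : (0 : ℝ) < s := by exact_mod_cast (by omega : 0 < s)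
    have hD' : (0 : ℝ) < K₀.index := by exact_mod_cast hD
    rw [div_le_iff₀ (by positivity)]
    have h4 : ((KK Γ m s).ncard : ℝ) ≤
        ((InvP (rho K₀ e γ) (K₀.index ^ m * s)).ncard : ℝ) * (K₀.index : ℝ) ^ m := by
      exact_mod_cast (KK_bound K₀ e γ s).2
    refine le_trans h4 (le_of_eq ?_)
    simp only [Function.comp]
    push_cast
    rw [mul_pow]
    field_simp
  · push Not at hex
    have h0 : ∀ s, KK Γ m s = ∅ := hex
    refine ⟨fun s => by rw [h0]; exact Set.finite_empty, ?_⟩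
    simp only [h0, Set.ncard_empty]
    simp

end Pool.Agent.H.MP_a7957c_al
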