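import Mathlib
import Pool.Agent.H.MP_a7957c_al.Family
import Pool.Agent.H.MP_a7957c_al.VirtCount

/-! Assembly. -/

set_option autoImplicit false

namespace Pool.Agent.H.MP_a7957c_al

open Module Filter Topology

theorem ball_finite (n r : ℕ) : {g : FreeGroup (Fin n) | g.norm ≤ r}.Finite := by
  have h1 : {l : List (Fin n × Bool) | l.length ≤ r}.Finite := List.finite_length_le _ _
  refine Set.Finite.of_finite_image (f := FreeGroup.toWord) (h1.subset ?_)
    (Set.injOn_of_injective FreeGroup.toWord_injective)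
  rintro _ ⟨g, hg, rfl⟩
  exact hg

theorem CoarseData.index_le {n m c : ℕ} {N : Subgroup (FreeGroup (Fin n))} [N.Normal]
    {L : AddSubgroup (Fin m → ℤ)} (D : CoarseData n m c N L) (hL : L.index ≠ 0) :
    N.index ≤ L.index * {g : FreeGroup (Fin n) | g.norm ≤ c}.ncard := by
  have hfi : L.FiniteIndex := ⟨hL⟩
  have hfin : Finite {g : FreeGroup (Fin n) | g.norm ≤ c} := ball_finite n c
  have h1 : Function.Surjective (fun p : ((Fin m → ℤ) ⧸ L) × {g : FreeGroup (Fin n) | g.norm ≤ c} =>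
      ((p.2.1 : FreeGroup (Fin n)) : FreeGroup (Fin n) ⧸ N)⁻¹ * D.f p.1) := by
    intro y
    refine ⟨(D.h y, ⟨D.ta y, D.ta_norm y⟩), ?_⟩
    simp only
    rw [D.ta_spec, inv_mul_cancel_left]
  have h2 := Nat.card_le_card_of_surjective _ h1
  rw [Nat.card_prod] at h2
  exact h2

/-- generators of a quotient -/
theorem gens_quot {n : ℕ} (R : Subgroup (FreeGroup (Fin n))) [R.Normal] :
    Subgroup.closure (Set.range (fun i : Fin n => (FreeGroup.of i : FreeGroup (Fin n) ⧸ R))) = ⊤ := by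
  have h1 : Set.range (fun i : Fin n => (FreeGroup.of i : FreeGroup (Fin n) ⧸ R)) =
      (QuotientGroup.mk' R) '' (Set.range FreeGroup.of) := by
    rw [← Set.range_comp]; rfl
  rw [h1, ← MonoidHom.map_closure, FreeGroup.closure_range_of, ← MonoidHom.range_eq_map,
    MonoidHom.range_eq_top]
  exact QuotientGroup.mk'_surjective R

/-- subgroups attached to a set `A` of relators. -/
def TA (n m s : ℕ) (A : Set (FreeGroup (Fin n))) : Set (NI n) :=
  {N | Subgroup.normalClosure A ≤ N.1 ∧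
    N.1.map (QuotientGroup.mk' (Subgroup.normalClosure A)) ∈
      KK (FreeGroup (Fin n) ⧸ Subgroup.normalClosure A) m s}

theorem TA_injOn (n m s : ℕ) (A : Set (FreeGroup (Fin n))) :
    Set.InjOn (fun N : NI n => N.1.map (QuotientGroup.mk' (Subgroup.normalClosure A)))
      (TA n m s A) := by
  intro N hN N' hN' h
  have key : ∀ N : NI n, Subgroup.normalClosure A ≤ N.1 →
      (N.1.map (QuotientGroup.mk' (Subgroup.normalClosure A))).comap
        (QuotientGroup.mk' (Subgroup.normalClosure A)) = N.1 := by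
    intro N hN
    rw [Subgroup.comap_map_eq, QuotientGroup.ker_mk', sup_eq_left]
    exact hN
  apply Subtype.ext
  rw [← key N hN.1, ← key N' hN'.1]
  have h' : N.1.map (QuotientGroup.mk' (Subgroup.normalClosure A)) =
    N'.1.map (QuotientGroup.mk' (Subgroup.normalClosure A)) := h
  rw [h']

theorem TA_card {n m : ℕ} (hnm : n < m) (s : ℕ) (A : Set (FreeGroup (Fin n))) :
    (TA n m s A).Finite ∧ (TA n m s A).ncard ≤
      (KK (FreeGroup (Fin n) ⧸ Subgroup.normalClosure A) m s).ncard := by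
  have hfin := (KK_tendsto (m := m) hnm _ (gens_quot (Subgroup.normalClosure A))).1 s
  have hmaps : ∀ N ∈ TA n m s A, (fun N : NI n =>
      N.1.map (QuotientGroup.mk' (Subgroup.normalClosure A))) N ∈
      KK (FreeGroup (Fin n) ⧸ Subgroup.normalClosure A) m s := fun N hN => hN.2
  exact ⟨Set.Finite.of_finite_image (hfin.subset (Set.image_subset_iff.mpr hmaps))
    (TA_injOn n m s A), Set.ncard_le_ncard_of_injOn _ hmaps (TA_injOn n m s A) hfin⟩

/-- The core theorem. -/
theorem core {n m : ℕ} (hnm : n < m) {CX : ℕ → BX m → BX m → Prop} {CY : ℕ → BX n → BX n → Prop}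
    (hX : BoxClose m CX) (hY : BoxClose n CY) (f : BX m → BX n) (h : BX n → BX m)
    (hf : ∀ R, ∃ S, ∀ p q, CX R p q → CY S (f p) (f q))
    (hh : ∀ R, ∃ S, ∀ p q, CY R p q → CX S (h p) (h q))
    (hhf : ∃ C, ∀ p, CX C (h (f p)) p) (hfh : ∃ C, ∀ q, CY C (f (h q)) q) : False := by
  classical
  obtain ⟨c, bad, φ, ψ, hbad, hint⟩ := pieces hX hY f h hf hh hhf hfh
  obtain ⟨j, rfl⟩ : ∃ j, m = j + 1 := ⟨m - 1, by omega⟩
  obtain ⟨B, hB⟩ : ∃ B : ℕ, ∀ M ∈ bad, M.1.index ≤ B := by
    obtain ⟨B, hB⟩ := (hbad.image (fun M : NI (j + 1) => M.1.index)).bddAbove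
    exact ⟨B, fun M hM => hB ⟨M, hM, rfl⟩⟩
  set c' := 2 * c with hc'
  set k := ss c' + B + 1 with hk
  have hk0 : k ≠ 0 := by omega
  have hk1 : 1 ≤ k := by omega
  set β := {g : FreeGroup (Fin n) | g.norm ≤ c'}.ncard with hβ
  have hβ1 : 1 ≤ β := by
    rw [hβ, Nat.one_le_iff_ne_zero, Ne, Set.ncard_eq_zero (ball_finite n c')]
    intro h0
    have : (1 : FreeGroup (Fin n)) ∈ {g : FreeGroup (Fin n) | g.norm ≤ c'} := by
      simp
    rw [h0] at this
    exact this
  set κ := 2 * k ^ (j + 1) * β with hκ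
  have hκ1 : 1 ≤ κ := by
    have : 0 < k ^ (j + 1) := by positivity
    have : 0 < 2 * k ^ (j + 1) * β := by positivity
    omega
  -- facts about each lattice
  have fact : ∀ (q : ℕ), q ≠ 0 → ∀ a : Fin j → ℕ, ∃ hL : (lat k q a).index ≠ 0,
      ψ (φ (MLp (lat k q a) hL)) = MLp (lat k q a) hL ∧
      ∃ A ∈ {A : Set (FreeGroup (Fin n)) | A ⊆ {g | g.norm ≤ rr c'}},
        ∀ s, q * k ^ (j + 1) * β ≤ s → φ (MLp (lat k q a) hL) ∈ TA n (j + 1) s A := by
    intro q hq a
    have : NeZero q := ⟨hq⟩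
    have hidx := lat_index k q hk0 a
    have hkp : 0 < k ^ (j + 1) := by positivity
    have hL : (lat k q a).index ≠ 0 := by
      rw [hidx]; positivity
    have hMnot : MLp (lat k q a) hL ∉ bad := by
      intro hmem
      have h1 := hB _ hmem
      have h2 : (MLp (lat k q a) hL).1.index = (lat k q a).index := ML_index _
      rw [h2, hidx] at h1
      have h3 : k ≤ k ^ (j + 1) := Nat.le_self_pow (by omega) k
      have h4 : 1 * k ^ (j + 1) ≤ q * k ^ (j + 1) :=
        Nat.mul_le_mul_right _ (Nat.one_le_iff_ne_zero.mpr hq)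
      omega
    obtain ⟨hψ, F, H, i1, i2, i3, i4⟩ := hint _ hMnot
    have hNn : (φ (MLp (lat k q a) hL)).1.Normal := (φ (MLp (lat k q a) hL)).2.1
    have hNf : (φ (MLp (lat k q a) hL)).1.FiniteIndex := (φ (MLp (lat k q a) hL)).2.2
    obtain ⟨D⟩ := exists_coarseData (N := (φ (MLp (lat k q a) hL)).1) (L := lat k q a) F H i1 i2 i3 i4
    have hsys : ∀ v ∈ lat k q a, nrm v ≤ ss c' → v = 0 := by
      intro v hv hn
      exact lat_systole k q a v hv (by omega)
    have hpi := D.coarse_pi1 hsys hL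
    have hNidx := D.index_le hL
    refine ⟨hL, hψ, {g | g ∈ (φ (MLp (lat k q a) hL)).1 ∧ g.norm ≤ rr c'}, ?_, ?_⟩
    · intro g hg; exact hg.2
    · intro s hs
      have hRle : RR c' (φ (MLp (lat k q a) hL)).1 ≤ (φ (MLp (lat k q a) hL)).1 :=
        CoarseData.RR_le
      have hidxmap : ((φ (MLp (lat k q a) hL)).1.map
          (QuotientGroup.mk' (RR c' (φ (MLp (lat k q a) hL)).1))).index =
          (φ (MLp (lat k q a) hL)).1.index :=
        Subgroup.index_map_eq _ (QuotientGroup.mk'_surjective _)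
          (by rw [QuotientGroup.ker_mk']; exact hRle)
      refine ⟨hRle, ?_, ?_, ?_, hpi⟩
      · exact hNn.map _ (QuotientGroup.mk'_surjective _)
      · exact fun h0 => hNf.index_ne_zero (hidxmap ▸ h0)
      · refine le_trans (le_of_eq hidxmap) (le_trans hNidx ?_)
        rw [hidx]
        exact hs
  -- finite collection of relator sets
  have hAfin : {A : Set (FreeGroup (Fin n)) | A ⊆ {g | g.norm ≤ rr c'}}.Finite :=
    (ball_finite n (rr c')).finite_subsets
  let 𝒜 := hAfin.toFinset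
  -- the counting inequality
  have count : ∀ Y : ℕ, 1 ≤ Y → Y ^ (j + 1) ≤ ∑ A ∈ 𝒜,
      (KK (FreeGroup (Fin n) ⧸ Subgroup.normalClosure A) (j + 1) (κ * Y)).ncard := by
    intro Y hY
    let enc : Fin Y × (Fin j → Fin Y) → NI n := fun p =>
      φ (MLp (lat k (Y + 1 + p.1) (fun t => (p.2 t : ℕ)))
        (Classical.choose (fact (Y + 1 + p.1) (by omega) (fun t => (p.2 t : ℕ)))))
    have henc : ∀ p, enc p ∈ ⋃ A ∈ 𝒜, TA n (j + 1) (κ * Y) A := by
      intro p
      obtain ⟨_, A, hA, hTA⟩ := Classical.choose_spec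
        (fact (Y + 1 + p.1) (by omega) (fun t => (p.2 t : ℕ)))
      simp only [Set.mem_iUnion]
      refine ⟨A, hAfin.mem_toFinset.mpr hA, hTA _ ?_⟩
      have h1 : Y + 1 + (p.1 : ℕ) ≤ 2 * Y := by have := p.1.2; omega
      calc (Y + 1 + (p.1 : ℕ)) * k ^ (j + 1) * β ≤ (2 * Y) * k ^ (j + 1) * β :=
            Nat.mul_le_mul_right _ (Nat.mul_le_mul_right _ h1)
        _ = κ * Y := by rw [hκ]; ring
    have hencinj : Function.Injective enc := by
      intro p p' hpp
      have h1 := (Classical.choose_spec (fact (Y + 1 + p.1) (by omega) (fun t => (p.2 t : ℕ)))).1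
      have h2 := (Classical.choose_spec (fact (Y + 1 + p'.1) (by omega) (fun t => (p'.2 t : ℕ)))).1
      have h3 : MLp (lat k (Y + 1 + p.1) (fun t => (p.2 t : ℕ)))
          (Classical.choose (fact (Y + 1 + p.1) (by omega) (fun t => (p.2 t : ℕ)))) =
        MLp (lat k (Y + 1 + p'.1) (fun t => (p'.2 t : ℕ)))
          (Classical.choose (fact (Y + 1 + p'.1) (by omega) (fun t => (p'.2 t : ℕ)))) := by
        rw [← h1, ← h2]
        exact congrArg ψ hpp
      have h4 := ML_injective (congrArg Subtype.val h3)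
      have : NeZero (Y + 1 + (p.1 : ℕ)) := ⟨by omega⟩
      have : NeZero (Y + 1 + (p'.1 : ℕ)) := ⟨by omega⟩
      obtain ⟨h5, h6⟩ := lat_inj k _ _ hk0 _ _ (fun t => by have := (p.2 t).2; omega)
        (fun t => by have := (p'.2 t).2; omega) h4
      apply Prod.ext
      · exact Fin.ext (by omega)
      · funext t
        exact Fin.ext (congrFun h6 t)
    have hfinU : (⋃ A ∈ 𝒜, TA n (j + 1) (κ * Y) A).Finite :=
      Set.Finite.biUnion (Finset.finite_toSet 𝒜) (fun A _ => (TA_card hnm _ A).1)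
    have h1 : Nat.card (Fin Y × (Fin j → Fin Y)) ≤ (⋃ A ∈ 𝒜, TA n (j + 1) (κ * Y) A).ncard := by
      have h2 : (Set.range enc).ncard ≤ (⋃ A ∈ 𝒜, TA n (j + 1) (κ * Y) A).ncard := by
        apply Set.ncard_le_ncard _ hfinU
        rintro _ ⟨p, rfl⟩
        exact henc p
      rwa [← Set.image_univ, Set.ncard_image_of_injective _ hencinj, Set.ncard_univ] at h2
    have h3 : Nat.card (Fin Y × (Fin j → Fin Y)) = Y ^ (j + 1) := by
      rw [Nat.card_prod, Nat.card_eq_fintype_card, Nat.card_eq_fintype_card, Fintype.card_fin,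
        Fintype.card_fun, Fintype.card_fin, Fintype.card_fin, pow_succ']
    rw [← h3]
    refine le_trans h1 (le_trans (Finset.set_ncard_biUnion_le _ _) ?_)
    exact Finset.sum_le_sum fun A _ => (TA_card hnm _ A).2
  -- limit
  have hlim : Tendsto (fun Y : ℕ => ∑ A ∈ 𝒜,
      ((KK (FreeGroup (Fin n) ⧸ Subgroup.normalClosure A) (j + 1) (κ * Y)).ncard : ℝ) /
        (Y : ℝ) ^ (j + 1)) atTop (𝓝 0) := by
    have h0 : (0 : ℝ) = ∑ A ∈ 𝒜, (0 : ℝ) := by simp
    rw [h0]
    refine tendsto_finsetSum _ fun A _ => ?_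
    have h1 := (KK_tendsto (m := j + 1) hnm _ (gens_quot (Subgroup.normalClosure A))).2
    have h2 : Tendsto (fun Y : ℕ => κ * Y) atTop atTop :=
      Filter.tendsto_atTop_mono (fun Y => Nat.le_mul_of_pos_left Y hκ1) tendsto_id
    have h3 := (h1.comp h2).mul_const ((κ : ℝ) ^ (j + 1))
    rw [zero_mul] at h3
    refine h3.congr' ?_
    filter_upwards [eventually_ge_atTop 1] with Y hY
    have hY0 : (0 : ℝ) < Y := by exact_mod_cast (by omega : 0 < Y)
    have hκ0 : (0 : ℝ) < κ := by exact_mod_cast (by omega : 0 < κ)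
    simp only [Function.comp]
    push_cast
    rw [mul_pow]
    field_simp
  have hge : ∀ᶠ Y : ℕ in atTop, (1 : ℝ) ≤ ∑ A ∈ 𝒜,
      ((KK (FreeGroup (Fin n) ⧸ Subgroup.normalClosure A) (j + 1) (κ * Y)).ncard : ℝ) /
        (Y : ℝ) ^ (j + 1) := by
    filter_upwards [eventually_ge_atTop 1] with Y hY
    have hY0 : (0 : ℝ) < Y := by exact_mod_cast (by omega : 0 < Y)
    rw [← Finset.sum_div, le_div_iff₀ (by positivity), one_mul]
    exact_mod_cast count Y hY
  have := ge_of_tendsto hlim hge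
  linarith

end Pool.Agent.H.MP_a7957c_al
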