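import Mathlib
import Pool.Agent.H.MP_a7957c_al.Core

/-! Finitely many normal subgroups of bounded index; closeness from a distance function. -/

set_option autoImplicit false

namespace Pool.Agent.H.MP_a7957c_al

theorem normal_index_le_finite (k R : ℕ) : {N : NI k | N.1.index ≤ R}.Finite := by
  classical
  let T : Set (Subgroup (FreeGroup (Fin k))) :=
    ⋃ j ∈ Finset.range (R + 1), Set.range (fun u : Fin k → Equiv.Perm (Fin j) =>
      (FreeGroup.lift u).ker)
  have hT : T.Finite := Set.Finite.biUnion (Finset.finite_toSet _) fun j _ => Set.finite_range _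
  refine Set.Finite.of_finite_image (f := Subtype.val) (hT.subset ?_)
    (Set.injOn_of_injective Subtype.val_injective)
  rintro _ ⟨N, hN, rfl⟩
  have hn : N.1.Normal := N.2.1
  have hf : N.1.FiniteIndex := N.2.2
  have hfin : Finite (FreeGroup (Fin k) ⧸ N.1) := inferInstance
  simp only [T, Set.mem_iUnion]
  refine ⟨N.1.index, Finset.mem_range.mpr (Nat.lt_succ_of_le hN), ?_⟩
  have e : (FreeGroup (Fin k) ⧸ N.1) ≃ Fin N.1.index := Finite.equivFin _
  let ψ : FreeGroup (Fin k) →* Equiv.Perm (Fin N.1.index) :=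
    (e.permCongrHom : Equiv.Perm (FreeGroup (Fin k) ⧸ N.1) ≃* Equiv.Perm (Fin N.1.index)).toMonoidHom.comp
      (MulAction.toPermHom (FreeGroup (Fin k)) (FreeGroup (Fin k) ⧸ N.1))
  refine ⟨fun i => ψ (FreeGroup.of i), ?_⟩
  have h1 : FreeGroup.lift (fun i => ψ (FreeGroup.of i)) = ψ := by
    apply FreeGroup.ext_hom
    intro i
    rw [FreeGroup.lift_apply_of]
  simp only
  rw [h1]
  ext g
  rw [MonoidHom.mem_ker]
  have h2 : ψ g = 1 ↔ MulAction.toPermHom (FreeGroup (Fin k)) (FreeGroup (Fin k) ⧸ N.1) g = 1 := by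
    exact MulEquiv.map_eq_one_iff (e.permCongrHom : Equiv.Perm (FreeGroup (Fin k) ⧸ N.1) ≃*
      Equiv.Perm (Fin N.1.index))
  rw [h2, ← MonoidHom.mem_ker, ← Subgroup.normalCore_eq_ker, Subgroup.normalCore_eq_self]

end Pool.Agent.H.MP_a7957c_al
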